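import Mathlib

set_option autoImplicit false
open TopologicalSpace

namespace Pool.Agent.Helper830.MPel

/-- continuity on the tree of finite sequences: `g t` is close to `g s` when `t` properly extends `s`
and the label of `t` just after `s` is large. -/
def CT (g : List ℕ → ℝ) : Prop :=
  ∀ s : List ℕ, ∀ ε > (0:ℝ), ∃ M : ℕ, ∀ t : List ℕ, s <+: t → s.length < t.length →
    M ≤ t.getD s.length 0 → |g t - g s| ≤ ε

/-- the trivialised form of `CT`: `y t` is small when `t` properly extends `s` and the label of `t`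
just after `s` is large. -/
def C0 (y : List ℕ → ℝ) : Prop :=
  ∀ s : List ℕ, ∀ ε > (0:ℝ), ∃ M : ℕ, ∀ t : List ℕ, s <+: t → s.length < t.length →
    M ≤ t.getD s.length 0 → |y t| ≤ ε

/-- the points of the double fan: `(t, P, j)`, `P ⊆ {0, …, |t|-1}` with at most two elements. -/
abbrev XX : Type :=
  {x : List ℕ × Finset ℕ × ℕ // (∀ i ∈ x.2.1, i < x.1.length) ∧ x.2.1.card ≤ 2}

/-- continuity on the double fan: `(t, P, j)` is close to `(s, Q, 0)` when `t` extends `s`,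
`|s| ∈ P`, `Q = P ∩ |s|` and the label of `t` just after `s` is large. -/
def CX (f : XX → ℝ) : Prop :=
  ∀ x : XX, x.1.2.2 = 0 → ∀ ε > (0:ℝ), ∃ M : ℕ, ∀ y : XX, x.1.1 <+: y.1.1 →
    x.1.1.length ∈ y.1.2.1 → x.1.2.1 = y.1.2.1.filter (· < x.1.1.length) →
    M ≤ y.1.1.getD x.1.1.length 0 → |f y - f x| ≤ ε

/-- the trivialised form of `CX`. -/
def CJ (w : XX → ℝ) : Prop :=
  ∀ s : List ℕ, ∀ ε > (0:ℝ), ∃ M : ℕ, ∀ y : XX, s <+: y.1.1 →
    s.length ∈ y.1.2.1 → M ≤ y.1.1.getD s.length 0 → |w y| ≤ ε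

end Pool.Agent.Helper830.MPel
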