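import Pool.Agent.Helper830.MPel.Defs

set_option autoImplicit false
open TopologicalSpace

namespace Pool.Agent.Helper830.MPel.Jobdiff


theorem par_ok (x : XX) (h : x.1.2.1.Nonempty) :
    (∀ i ∈ x.1.2.1.erase (x.1.2.1.max' h), i < (x.1.1.take (x.1.2.1.max' h)).length) ∧
      (x.1.2.1.erase (x.1.2.1.max' h)).card ≤ 2 := by
  have hm : x.1.2.1.max' h < x.1.1.length := x.2.1 _ (Finset.max'_mem _ h)
  constructor
  · intro i hi
    rw [Finset.mem_erase] at hi
    have h1 := Finset.le_max' _ i hi.2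
    rw [List.length_take]
    have : i < x.1.2.1.max' h := lt_of_le_of_ne h1 hi.1
    omega
  · exact (Finset.card_le_card (Finset.erase_subset _ _)).trans x.2.2

/-- the parent of a point -/
noncomputable def par (x : XX) : XX :=
  open Classical in
  if h : x.1.2.1.Nonempty then
    ⟨(x.1.1.take (x.1.2.1.max' h), x.1.2.1.erase (x.1.2.1.max' h), 0), par_ok x h⟩
  else x

theorem par_pos (x : XX) (h : x.1.2.1.Nonempty) :
    par x = ⟨(x.1.1.take (x.1.2.1.max' h), x.1.2.1.erase (x.1.2.1.max' h), 0), par_ok x h⟩ := by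
  unfold par
  rw [dif_pos h]

theorem par_neg (x : XX) (h : ¬ x.1.2.1.Nonempty) : par x = x := by
  unfold par
  rw [dif_neg h]

theorem par_card (x : XX) : (par x).1.2.1.card ≤ x.1.2.1.card - 1 := by
  by_cases h : x.1.2.1.Nonempty
  · rw [par_pos x h]
    simp only
    rw [Finset.card_erase_of_mem (Finset.max'_mem _ h)]
  · rw [par_neg x h]
    rw [Finset.not_nonempty_iff_eq_empty] at h
    rw [h]
    simp

theorem ppar_empty (x : XX) : ¬ (par (par x)).1.2.1.Nonempty := by
  have h1 := par_card x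
  have h2 := par_card (par x)
  have h3 := x.2.2
  rw [Finset.not_nonempty_iff_eq_empty, ← Finset.card_eq_zero]
  omega

/-- the difference map -/
noncomputable def Ph (f : XX → ℝ) (x : XX) : ℝ :=
  open Classical in
  f x - (if x.1.2.1.Nonempty then f (par x) else 0)

/-- its inverse -/
noncomputable def Ps (w : XX → ℝ) (x : XX) : ℝ :=
  open Classical in
  w x + (if x.1.2.1.Nonempty then w (par x) else 0) +
    (if (par x).1.2.1.Nonempty then w (par (par x)) else 0)

theorem Ps_Ph (f : XX → ℝ) : Ps (Ph f) = f := by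
  funext x
  unfold Ps Ph
  have h0 := ppar_empty x
  by_cases h1 : x.1.2.1.Nonempty
  · by_cases h2 : (par x).1.2.1.Nonempty
    · simp only [h0, h1, h2, if_true, if_false]
      ring
    · simp only [h1, h2, if_true, if_false]
      ring
  · have h2 : ¬ (par x).1.2.1.Nonempty := by rw [par_neg x h1]; exact h1
    simp only [h1, h2, if_false]
    ring

theorem Ph_Ps (w : XX → ℝ) : Ph (Ps w) = w := by
  funext x
  unfold Ps Ph
  have h0 := ppar_empty x
  by_cases h1 : x.1.2.1.Nonempty
  · by_cases h2 : (par x).1.2.1.Nonempty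
    · simp only [h0, h1, h2, if_true, if_false]
      ring
    · have h3 : par (par x) = par x := par_neg _ h2
      simp only [h1, h2, h3, if_true, if_false]
      ring
  · have h2 : ¬ (par x).1.2.1.Nonempty := by rw [par_neg x h1]; exact h1
    simp only [h1, h2, if_false]
    ring

theorem Ph_uc : UniformContinuous Ph := by
  rw [uniformContinuous_pi]
  intro x
  unfold Ph
  have h1 : UniformContinuous (fun f : XX → ℝ => f x) := Pi.uniformContinuous_proj _ x
  have h2 : UniformContinuous (fun f : XX → ℝ => f (par x)) := Pi.uniformContinuous_proj _ (par x)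
  by_cases h : x.1.2.1.Nonempty
  · simp only [h, if_true]
    exact h1.sub h2
  · simp only [h, if_false]
    exact h1.sub uniformContinuous_const

theorem Ps_uc : UniformContinuous Ps := by
  rw [uniformContinuous_pi]
  intro x
  unfold Ps
  have h1 : UniformContinuous (fun f : XX → ℝ => f x) := Pi.uniformContinuous_proj _ x
  have h2 : UniformContinuous (fun f : XX → ℝ => f (par x)) := Pi.uniformContinuous_proj _ (par x)
  have h3 : UniformContinuous (fun f : XX → ℝ => f (par (par x))) :=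
    Pi.uniformContinuous_proj _ (par (par x))
  have h4 : UniformContinuous (fun f : XX → ℝ => (0:ℝ)) := uniformContinuous_const
  by_cases h : x.1.2.1.Nonempty
  · by_cases h' : (par x).1.2.1.Nonempty
    · simp only [h, h', if_true]
      exact (h1.add h2).add h3
    · simp only [h, h', if_true, if_false]
      exact (h1.add h2).add h4
  · by_cases h' : (par x).1.2.1.Nonempty
    · simp only [h, h', if_true, if_false]
      exact (h1.add h4).add h3
    · simp only [h, h', if_false]
      exact (h1.add h4).add h4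

/-- last step: if `|s|` is the largest element of `P`, the parent is `(s, P ∩ |s|, 0)`. -/
theorem par_last (x y : XX) (hx : x.1.2.2 = 0) (h1 : x.1.1 <+: y.1.1)
    (h2 : x.1.1.length ∈ y.1.2.1) (h3 : x.1.2.1 = y.1.2.1.filter (· < x.1.1.length))
    (h4 : ∀ j ∈ y.1.2.1, j ≤ x.1.1.length) : par y = x := by
  have hne : y.1.2.1.Nonempty := ⟨_, h2⟩
  have hmax : y.1.2.1.max' hne = x.1.1.length :=
    le_antisymm (Finset.max'_le _ _ _ h4) (Finset.le_max' _ _ h2)
  rw [par_pos y hne]
  apply Subtype.ext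
  refine Prod.ext ?_ (Prod.ext ?_ ?_)
  · simp only [hmax]
    exact (List.prefix_iff_eq_take.1 h1).symm
  · simp only [hmax]
    rw [h3]
    ext j
    rw [Finset.mem_erase, Finset.mem_filter]
    constructor
    · rintro ⟨ha, hb⟩
      exact ⟨hb, lt_of_le_of_ne (h4 j hb) ha⟩
    · rintro ⟨ha, hb⟩
      exact ⟨hb.ne, ha⟩
  · exact hx.symm

/-- non-last step: if the largest element of `P` is larger than `|s|`, the parent still
satisfies the conditions. -/
theorem par_step (s : List ℕ) (y : XX) (h1 : s <+: y.1.1) (h2 : s.length ∈ y.1.2.1)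
    (h4 : ∃ j ∈ y.1.2.1, s.length < j) :
    s <+: (par y).1.1 ∧ s.length ∈ (par y).1.2.1 ∧
    (par y).1.2.1.filter (· < s.length) = y.1.2.1.filter (· < s.length) ∧
    (par y).1.1.getD s.length 0 = y.1.1.getD s.length 0 ∧
    ∀ j ∈ (par y).1.2.1, j ≤ s.length := by
  have hne : y.1.2.1.Nonempty := ⟨_, h2⟩
  obtain ⟨j, hj, hjs⟩ := h4
  have hlt : s.length < y.1.2.1.max' hne := lt_of_lt_of_le hjs (Finset.le_max' _ _ hj)
  have hml : y.1.2.1.max' hne < y.1.1.length := y.2.1 _ (Finset.max'_mem _ hne)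
  have hmem : s.length ∈ (par y).1.2.1 := by
    rw [par_pos y hne]
    simp only
    rw [Finset.mem_erase]
    exact ⟨hlt.ne, h2⟩
  refine ⟨?_, hmem, ?_, ?_, ?_⟩
  · rw [par_pos y hne]
    simp only
    rw [List.prefix_take_iff]
    exact ⟨h1, hlt.le⟩
  · rw [par_pos y hne]
    simp only
    ext i
    rw [Finset.mem_filter, Finset.mem_filter, Finset.mem_erase]
    constructor
    · rintro ⟨⟨_, ha⟩, hb⟩
      exact ⟨ha, hb⟩
    · rintro ⟨ha, hb⟩
      exact ⟨⟨(hb.trans hlt).ne, ha⟩, hb⟩
  · rw [par_pos y hne]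
    simp only
    rw [List.getD_eq_getElem?_getD, List.getD_eq_getElem?_getD, List.getElem?_take_of_lt hlt]
  · intro i hi
    have hc : (par y).1.2.1.card ≤ 1 := by
      have := par_card y
      have := y.2.2
      omega
    exact (Finset.card_le_one.1 hc i hi _ hmem).le

theorem diff : ∃ Φ : (XX → ℝ) ≃ᵤ (XX → ℝ), ∀ f, CX f ↔ CJ (Φ f) := by
  refine ⟨⟨⟨Ph, Ps, Ps_Ph, Ph_Ps⟩, Ph_uc, Ps_uc⟩, fun f => ?_⟩
  change CX f ↔ CJ (Ph f)
  have hval : ∀ y : XX, y.1.2.1.Nonempty → Ph f y = f y - f (par y) := by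
    intro y hy
    unfold Ph
    rw [if_pos hy]
  constructor
  · intro hf s ε hε
    -- the finitely many base points
    have key : ∀ Q : Finset ℕ, ∃ M : ℕ, ∀ (hQ : (∀ i ∈ Q, i < s.length) ∧ Q.card ≤ 2), ∀ y : XX,
        s <+: y.1.1 → s.length ∈ y.1.2.1 → Q = y.1.2.1.filter (· < s.length) →
        M ≤ y.1.1.getD s.length 0 → |f y - f ⟨(s, Q, 0), hQ⟩| ≤ ε / 2 := by
      intro Q
      by_cases hQ : (∀ i ∈ Q, i < s.length) ∧ Q.card ≤ 2
      · obtain ⟨M, hM⟩ := hf ⟨(s, Q, 0), hQ⟩ rfl (ε / 2) (by positivity)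
        exact ⟨M, fun _ y h1 h2 h3 h4 => hM y h1 h2 h3 h4⟩
      · exact ⟨0, fun h => absurd h hQ⟩
    choose M hM using key
    refine ⟨(Finset.range s.length).powerset.sup M, fun y h1 h2 h3 => ?_⟩
    have hne : y.1.2.1.Nonempty := ⟨_, h2⟩
    have hQ : (∀ i ∈ y.1.2.1.filter (· < s.length), i < s.length) ∧
        (y.1.2.1.filter (· < s.length)).card ≤ 2 :=
      ⟨fun i hi => (Finset.mem_filter.1 hi).2,
        (Finset.card_le_card (Finset.filter_subset _ _)).trans y.2.2⟩
    have hMQ : M (y.1.2.1.filter (· < s.length)) ≤ y.1.1.getD s.length 0 := by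
      refine le_trans ?_ h3
      apply Finset.le_sup (f := M)
      rw [Finset.mem_powerset]
      intro i hi
      exact Finset.mem_range.2 (Finset.mem_filter.1 hi).2
    have e1 := hM _ hQ y h1 h2 rfl hMQ
    rw [hval y hne]
    by_cases hbig : ∃ j ∈ y.1.2.1, s.length < j
    · obtain ⟨p1, p2, p3, p4, _⟩ := par_step s y h1 h2 hbig
      have e2 := hM _ hQ (par y) p1 p2 p3.symm (by rw [p4]; exact hMQ)
      rw [abs_le] at e1 e2 ⊢
      constructor <;> linarith [e1.1, e1.2, e2.1, e2.2]
    · push Not at hbig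
      have e2 : par y = ⟨(s, y.1.2.1.filter (· < s.length), 0), hQ⟩ :=
        par_last _ y rfl h1 h2 rfl hbig
      rw [e2]
      linarith
  · intro hw x hx ε hε
    obtain ⟨M, hM⟩ := hw x.1.1 (ε / 2) (by positivity)
    refine ⟨M, fun y h1 h2 h3 h4 => ?_⟩
    have hne : y.1.2.1.Nonempty := ⟨_, h2⟩
    have e1 := hM y h1 h2 h4
    rw [hval y hne] at e1
    by_cases hbig : ∃ j ∈ y.1.2.1, x.1.1.length < j
    · obtain ⟨p1, p2, p3, p4, p5⟩ := par_step x.1.1 y h1 h2 hbig
      have e2 := hM (par y) p1 p2 (by rw [p4]; exact h4)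
      rw [hval (par y) ⟨_, p2⟩, par_last x (par y) hx p1 p2 (by rw [p3]; exact h3) p5] at e2
      rw [abs_le] at e1 e2 ⊢
      constructor <;> linarith [e1.1, e1.2, e2.1, e2.2]
    · push Not at hbig
      rw [par_last x y hx h1 h2 h3 hbig] at e1
      linarith

end Pool.Agent.Helper830.MPel.Jobdiff
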