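import Pool.Agent.Helper830.MPel.Defs

set_option autoImplicit false
open TopologicalSpace

namespace Pool.Agent.Helper830.MPel.JobspaceT


noncomputable def h845w (r : List ℕ) : NNReal := (1/2)^(r.sum)

noncomputable def h845anc (t : List ℕ) : Finset (List ℕ) := t.inits.toFinset

noncomputable def h845d (x y : List ℕ) : NNReal := (symmDiff (h845anc x) (h845anc y)).sup h845w

theorem h845mem_anc (s t : List ℕ) : s ∈ h845anc t ↔ s <+: t := by
  simp [h845anc]

theorem h845w_pos (r : List ℕ) : 0 < h845w r := by
  unfold h845w; positivity

noncomputable abbrev h845M : MetricSpace (List ℕ) where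
  dist x y := (h845d x y : ℝ)
  dist_self x := by simp [h845d]
  dist_comm x y := by simp [h845d, symmDiff_comm]
  dist_triangle x y z := by
    have h1 : h845d x z ≤ max (h845d x y) (h845d y z) := by
      unfold h845d
      rw [← max_self ((symmDiff (h845anc x) (h845anc z)).sup h845w)]
      have h2 : symmDiff (h845anc x) (h845anc z) ⊆
          symmDiff (h845anc x) (h845anc y) ∪ symmDiff (h845anc y) (h845anc z) := by
        intro a ha
        simp only [Finset.mem_symmDiff, Finset.mem_union] at ha ⊢
        tauto
      have h3 := Finset.sup_mono (f := h845w) h2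
      rw [Finset.sup_union] at h3
      simpa using h3
    have h4 : h845d x z ≤ h845d x y + h845d y z := by
      refine h1.trans ?_
      exact max_le (by simp) (by simp)
    exact_mod_cast h4
  eq_of_dist_eq_zero := by
    intro x y h
    have h1 : h845d x y = 0 := by exact_mod_cast h
    have h2 : ∀ a ∈ symmDiff (h845anc x) (h845anc y), False := by
      intro a ha
      have h3 : h845w a ≤ h845d x y := Finset.le_sup (f := h845w) ha
      rw [h1] at h3
      exact absurd h3 (not_le.mpr (h845w_pos a))
    have hx : x <+: y := by
      by_contra hc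
      refine h2 x ?_
      rw [Finset.mem_symmDiff, h845mem_anc, h845mem_anc]
      exact Or.inl ⟨List.prefix_refl x, hc⟩
    have hy : y <+: x := by
      by_contra hc
      refine h2 y ?_
      rw [Finset.mem_symmDiff, h845mem_anc, h845mem_anc]
      exact Or.inr ⟨List.prefix_refl y, hc⟩
    exact hx.eq_of_length (le_antisymm hx.length_le hy.length_le)

theorem h845k2 (s t : List ℕ) (h : ¬ s <+: t) : h845w s ≤ h845d s t := by
  unfold h845d
  refine Finset.le_sup (f := h845w) ?_
  rw [Finset.mem_symmDiff, h845mem_anc, h845mem_anc]
  exact Or.inl ⟨List.prefix_refl s, h⟩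

theorem h845k1 (s t : List ℕ) (h : s <+: t) (hl : s.length < t.length) :
    h845d s t = (1/2)^(s.sum + t.getD s.length 0) := by
  obtain ⟨u, rfl⟩ := h
  cases u with
  | nil => simp at hl
  | cons a u =>
    have hg : (s ++ a :: u).getD s.length 0 = a := by
      simp
    rw [hg]
    apply le_antisymm
    · unfold h845d
      refine Finset.sup_le ?_
      intro b hb
      rw [Finset.mem_symmDiff, h845mem_anc, h845mem_anc] at hb
      rcases hb with ⟨hb1, hb2⟩ | ⟨hb1, hb2⟩
      · exact absurd (hb1.trans (List.prefix_append _ _)) hb2
      · -- b prefix of s ++ a :: u, not prefix of s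
        have h3 : s ++ [a] <+: b := by
          have h4 : s ++ [a] <+: s ++ a :: u := by
            rw [List.prefix_append_right_inj]
            simp
          rcases List.prefix_or_prefix_of_prefix h4 hb1 with h5 | h5
          · exact h5
          · rcases List.prefix_concat_iff.mp h5 with h6 | h6
            · rw [h6]
            · exact absurd h6 hb2
        obtain ⟨v, rfl⟩ := h3
        unfold h845w
        rw [List.sum_append, List.sum_append, List.sum_singleton, pow_add]
        refine mul_le_of_le_one_right (by positivity) ?_
        exact pow_le_one₀ (by positivity) (by norm_num)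
    · unfold h845d
      have h7 : ((1:NNReal)/2)^(s.sum + a) = h845w (s ++ [a]) := by
        unfold h845w
        rw [List.sum_append, List.sum_singleton]
      rw [h7]
      refine Finset.le_sup (f := h845w) ?_
      rw [Finset.mem_symmDiff, h845mem_anc, h845mem_anc]
      refine Or.inr ⟨?_, ?_⟩
      · rw [List.prefix_append_right_inj]
        simp
      · intro h8
        have := h8.length_le
        simp at this

theorem h845cont (g : List ℕ → ℝ) :
    @Continuous _ _ h845M.toPseudoMetricSpace.toUniformSpace.toTopologicalSpace _ g ↔ CT g := by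
  letI := h845M
  constructor
  · intro hg s ε hε
    rw [Metric.continuous_iff] at hg
    obtain ⟨δ, hδ, h⟩ := hg s ε hε
    obtain ⟨M, hM⟩ := exists_pow_lt_of_lt_one hδ (show (1/2:ℝ) < 1 by norm_num)
    refine ⟨M, fun t hst hlt hMt => ?_⟩
    have h1 : dist t s < δ := by
      rw [dist_comm]
      show ((h845d s t : NNReal) : ℝ) < δ
      rw [h845k1 s t hst hlt]
      refine lt_of_le_of_lt ?_ hM
      push_cast
      exact pow_le_pow_of_le_one (by norm_num) (by norm_num) (by omega)
    have h2 := h t h1
    rw [Real.dist_eq] at h2
    exact h2.le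
  · intro hg
    rw [Metric.continuous_iff]
    intro s ε hε
    obtain ⟨M, hM⟩ := hg s (ε/2) (by positivity)
    refine ⟨(1/2)^(s.sum + M), by positivity, fun t ht => ?_⟩
    rw [dist_comm] at ht
    change ((h845d s t : NNReal) : ℝ) < _ at ht
    have ht' : h845d s t < (1/2)^(s.sum + M) := by
      have : ((h845d s t : NNReal) : ℝ) < (((1/2)^(s.sum + M) : NNReal) : ℝ) := by
        push_cast; exact ht
      exact_mod_cast this
    have hp : s <+: t := by
      by_contra hc
      have h1 := h845k2 s t hc
      have h2 : ((1:NNReal)/2)^(s.sum + M) ≤ h845w s := by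
        unfold h845w
        rw [pow_add]
        exact mul_le_of_le_one_right (by positivity) (pow_le_one₀ (by positivity) (by norm_num))
      exact absurd (lt_of_lt_of_le ht' h2) (not_lt.mpr h1)
    rcases hp.length_le.lt_or_eq with hlt | heq
    · have h3 := ht'
      rw [h845k1 s t hp hlt] at h3
      have h4 : s.sum + M < s.sum + t.getD s.length 0 := by
        by_contra hc
        push Not at hc
        exact absurd h3 (not_lt.mpr (pow_le_pow_of_le_one (by positivity) (by norm_num) hc))
      have h5 := hM t hp hlt (by omega)
      rw [Real.dist_eq]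
      linarith
    · have : s = t := hp.eq_of_length heq
      subst this
      simpa using hε

theorem h845nc : ¬ @IsCompletelyMetrizableSpace (List ℕ)
    h845M.toPseudoMetricSpace.toUniformSpace.toTopologicalSpace := by
  intro hcm
  have key : ∀ x : List ℕ, ¬ @IsOpen _ h845M.toPseudoMetricSpace.toUniformSpace.toTopologicalSpace ({x} : Set (List ℕ)) := by
    intro x hx
    letI := h845M
    rw [Metric.isOpen_iff] at hx
    obtain ⟨δ, hδ, h⟩ := hx x rfl
    obtain ⟨M, hM⟩ := exists_pow_lt_of_lt_one hδ (show (1/2:ℝ) < 1 by norm_num)
    have h1 : (x ++ [M]) ∈ Metric.ball x δ := by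
      rw [Metric.mem_ball, dist_comm]
      show ((h845d x (x ++ [M]) : NNReal) : ℝ) < δ
      rw [h845k1 x (x ++ [M]) (List.prefix_append _ _) (by simp)]
      refine lt_of_le_of_lt ?_ hM
      push_cast
      refine pow_le_pow_of_le_one (by norm_num) (by norm_num) ?_
      simp
    have h2 := h h1
    simp at h2
  have hT1 : @T1Space (List ℕ) h845M.toPseudoMetricSpace.toUniformSpace.toTopologicalSpace := by
    letI := h845M
    infer_instance
  letI tt : TopologicalSpace (List ℕ) := h845M.toPseudoMetricSpace.toUniformSpace.toTopologicalSpace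
  haveI : IsCompletelyMetrizableSpace (List ℕ) := hcm
  haveI : T1Space (List ℕ) := hT1
  have hB : BaireSpace (List ℕ) := by
    letI := upgradeIsCompletelyMetrizable (List ℕ)
    infer_instance
  obtain ⟨i, hi⟩ := nonempty_interior_of_iUnion_of_closed (X := List ℕ) (f := fun x : List ℕ => ({x} : Set (List ℕ)))
    (fun x => isClosed_singleton) (by ext y; simp)
  have h1 : interior ({i} : Set (List ℕ)) = {i} := by
    obtain ⟨y, hy⟩ := hi
    have h2' : y ∈ ({i} : Set (List ℕ)) := interior_subset hy
    have h2 : y = i := Set.mem_singleton_iff.mp h2'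
    subst h2
    apply Set.Subset.antisymm interior_subset
    intro z hz
    rw [Set.mem_singleton_iff.mp hz]
    exact hy
  exact key i (interior_eq_iff_isOpen.mp h1)

theorem spaceT : ∃ tT : TopologicalSpace (List ℕ), @MetrizableSpace _ tT ∧
    ¬ @IsCompletelyMetrizableSpace _ tT ∧ ∀ g : List ℕ → ℝ, @Continuous _ _ tT _ g ↔ CT g := by
  refine ⟨h845M.toPseudoMetricSpace.toUniformSpace.toTopologicalSpace, ?_, h845nc, h845cont⟩
  letI := h845M
  infer_instance

end Pool.Agent.Helper830.MPel.JobspaceT
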