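import Pool.Agent.Helper830.MPel.Defs

set_option autoImplicit false
open TopologicalSpace

namespace Pool.Agent.Helper830.MPel.JobspaceX


/-! auxiliary: an abstract tree ultrametric -/

section Abstract

variable {X : Type} [DecidableEq X] (anc : X → Finset X) (w : X → NNReal)

/-- distance -/
def DD (x y : X) : NNReal := (symmDiff (anc x) (anc y)).sup w

theorem DD_self (x : X) : DD anc w x x = 0 := by
  unfold DD; rw [symmDiff_self]; simp

theorem DD_comm (x y : X) : DD anc w x y = DD anc w y x := by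
  unfold DD; rw [symmDiff_comm]

theorem DD_tri (x y z : X) : DD anc w x z ≤ DD anc w x y ⊔ DD anc w y z := by
  unfold DD
  rw [← Finset.sup_union]
  apply Finset.sup_mono
  exact symmDiff_triangle _ _ _

theorem DD_eq (hinj : Function.Injective anc) (hw : ∀ x, 0 < w x) {x y : X} (h : DD anc w x y = 0) : x = y := by
  unfold DD at h
  have h2 : symmDiff (anc x) (anc y) = ∅ := by
    rw [Finset.eq_empty_iff_forall_notMem]
    intro z hz
    have := Finset.le_sup (f := w) hz
    rw [h] at this
    exact absurd this (not_le.2 (hw z))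
  have h3 : symmDiff (anc x) (anc y) = ⊥ := h2
  rw [symmDiff_eq_bot] at h3
  exact hinj h3

/-- the metric -/
@[reducible] noncomputable def DMS (hinj : Function.Injective anc) (hw : ∀ x, 0 < w x) : MetricSpace X where
  dist x y := (DD anc w x y : ℝ)
  dist_self x := by simp [DD_self]
  dist_comm x y := by rw [DD_comm]
  dist_triangle x y z := by
    have h1 := DD_tri anc w x y z
    have h2 : DD anc w x y ⊔ DD anc w y z ≤ DD anc w x y + DD anc w y z :=
      sup_le (le_add_of_nonneg_right zero_le) (le_add_of_nonneg_left zero_le)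
    exact_mod_cast h1.trans h2
  eq_of_dist_eq_zero := by
    intro x y h
    exact DD_eq anc w hinj hw (by exact_mod_cast h)

theorem DMS_dist (hinj : Function.Injective anc) (hw : ∀ x, 0 < w x) (x y : X) :
    @dist X (DMS anc w hinj hw).toDist x y = (DD anc w x y : ℝ) := rfl

theorem le_DD {x y z : X} (h : ¬ (z ∈ anc x ↔ z ∈ anc y)) : w z ≤ DD anc w x y := by
  unfold DD
  apply Finset.le_sup
  rw [Finset.mem_symmDiff]
  tauto

theorem DMS_complete (hinj : Function.Injective anc) (hw : ∀ x, 0 < w x)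
    (A1 : ∀ x, x ∈ anc x) (A2 : ∀ x, ∀ y ∈ anc x, anc y ⊆ anc x)
    (A3 : ∀ x, ∀ y ∈ anc x, ∀ z ∈ anc x, y ∈ anc z ∨ z ∈ anc y)
    (A5 : ∀ x, (anc x).card ≤ 3) (A6 : ∀ x, ∃ z ∈ anc x, w z = 1) :
    @CompleteSpace X (DMS anc w hinj hw).toUniformSpace := by
  let _ := DMS anc w hinj hw
  apply Metric.complete_of_cauchySeq_tendsto
  intro u hu
  rw [Metric.cauchySeq_iff] at hu
  have hC : ∀ ε : ℝ, 0 < ε → ∃ N, ∀ m ≥ N, ∀ n ≥ N, (DD anc w (u m) (u n) : ℝ) < ε := hu
  -- eventual constancy
  have hconst : ∀ z, ∃ N, ∀ m ≥ N, ∀ n ≥ N, (z ∈ anc (u m) ↔ z ∈ anc (u n)) := by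
    intro z
    obtain ⟨N, hN⟩ := hC (w z) (by exact_mod_cast hw z)
    refine ⟨N, fun m hm n hn => ?_⟩
    by_contra hcon
    have h1 := le_DD anc w hcon
    have h2 : DD anc w (u m) (u n) < w z := by exact_mod_cast hN m hm n hn
    exact absurd h1 (not_le.2 h2)
  let L : Set X := {z | ∃ N, ∀ n ≥ N, z ∈ anc (u n)}
  have hnotL : ∀ z, z ∉ L → ∃ N, ∀ n ≥ N, z ∉ anc (u n) := by
    intro z hz
    obtain ⟨N, hN⟩ := hconst z
    refine ⟨N, fun n hn hzn => hz ⟨N, fun m hm => (hN n hn m hm).1 hzn⟩⟩
  have hLne : L.Nonempty := by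
    obtain ⟨N, hN⟩ := hC 1 one_pos
    obtain ⟨z, hz, hz1⟩ := A6 (u N)
    refine ⟨z, N, fun n hn => ?_⟩
    by_contra hcon
    have h1 := le_DD anc w (x := u n) (y := u N) (z := z) (by tauto)
    have h2 : DD anc w (u n) (u N) < 1 := by exact_mod_cast hN n hn N le_rfl
    rw [hz1] at h1
    exact absurd h1 (not_le.2 h2)
  -- maximal element
  obtain ⟨x, hxL, hxmax⟩ : ∃ x ∈ L, ∀ z ∈ L, (anc z).card ≤ (anc x).card := by
    by_contra hcon
    push Not at hcon
    have : ∀ k : ℕ, ∃ z ∈ L, k ≤ (anc z).card := by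
      intro k
      induction k with
      | zero => obtain ⟨z, hz⟩ := hLne; exact ⟨z, hz, Nat.zero_le _⟩
      | succ k ih =>
        obtain ⟨z, hz, hk⟩ := ih
        obtain ⟨z', hz', hlt⟩ := hcon z hz
        exact ⟨z', hz', by omega⟩
    obtain ⟨z, _, hz⟩ := this 4
    have := A5 z
    omega
  have hLx : ∀ z, z ∈ L ↔ z ∈ anc x := by
    intro z
    constructor
    · intro hz
      obtain ⟨N1, h1⟩ := hxL
      obtain ⟨N2, h2⟩ := hz
      rcases A3 (u (max N1 N2)) x (h1 _ (le_max_left _ _)) z (h2 _ (le_max_right _ _)) with h | h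
      · have hsub := A2 z x h
        have heq := Finset.eq_of_subset_of_card_le hsub (hxmax z ⟨N2, h2⟩)
        rw [heq]; exact A1 z
      · exact h
    · intro hz
      obtain ⟨N1, h1⟩ := hxL
      exact ⟨N1, fun n hn => A2 _ _ (h1 n hn) hz⟩
  refine ⟨x, ?_⟩
  rw [Metric.tendsto_atTop]
  intro ε hε
  obtain ⟨N, hN⟩ := hC ε hε
  refine ⟨N, fun n hn => ?_⟩
  show (DD anc w (u n) x : ℝ) < ε
  have hε' : (⊥ : NNReal) < ε.toNNReal := Real.toNNReal_pos.2 hε
  have key : DD anc w (u n) x < ε.toNNReal := by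
    unfold DD
    rw [Finset.sup_lt_iff hε']
    intro z hz
    rw [Finset.mem_symmDiff] at hz
    obtain ⟨m, hm, hmz⟩ : ∃ m ≥ N, (z ∈ anc (u m) ↔ z ∈ anc x) := by
      by_cases hzL : z ∈ L
      · obtain ⟨N1, h1⟩ := id hzL
        exact ⟨max N N1, le_max_left _ _, ⟨fun _ => (hLx z).1 hzL, fun _ => h1 _ (le_max_right _ _)⟩⟩
      · obtain ⟨N1, h1⟩ := hnotL z hzL
        exact ⟨max N N1, le_max_left _ _, ⟨fun h => absurd h (h1 _ (le_max_right _ _)),
          fun h => absurd ((hLx z).2 h) hzL⟩⟩
    have h1 : w z ≤ DD anc w (u n) (u m) := le_DD anc w (by tauto)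
    have h2 := hN n hn m hm
    have h3 : (w z : ℝ) ≤ (DD anc w (u n) (u m) : ℝ) := by exact_mod_cast h1
    have h4 : (w z : ℝ) < ε := lt_of_le_of_lt h3 h2
    rw [← NNReal.coe_lt_coe, Real.coe_toNNReal ε hε.le]
    exact h4
  rw [← NNReal.coe_lt_coe, Real.coe_toNNReal ε hε.le] at key
  exact key

end Abstract

/-- truncation -/
def pre (x : XX) (i : ℕ) : XX :=
  ⟨(x.1.1.take i, x.1.2.1.filter (· < i), 0), by
    constructor
    · intro k hk
      simp only [Finset.mem_filter] at hk
      have := x.2.1 k hk.1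
      simp only [List.length_take]
      omega
    · exact (Finset.card_filter_le _ _).trans x.2.2⟩

/-- ancestors -/
def anc (x : XX) : Finset XX := insert x (x.1.2.1.image (pre x))

/-- exponent -/
def EE (x : XX) : ℕ := ∑ i ∈ x.1.2.1, x.1.1.getD i 0

/-- weight -/
noncomputable def wt (x : XX) : NNReal := (1 / 2) ^ (EE x)

theorem mem_anc {x y : XX} : y ∈ anc x ↔ y = x ∨ ∃ i ∈ x.1.2.1, pre x i = y := by
  unfold anc; simp [Finset.mem_insert, Finset.mem_image]

theorem pre_pre (x : XX) {k i : ℕ} (hk : k < i) : pre (pre x i) k = pre x k := by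
  apply Subtype.ext
  show ((x.1.1.take i).take k, (x.1.2.1.filter (· < i)).filter (· < k), 0) = (x.1.1.take k, x.1.2.1.filter (· < k), 0)
  rw [List.take_take, min_eq_left hk.le, Finset.filter_filter]
  congr 2
  ext j
  simp only [Finset.mem_filter]
  constructor
  · rintro ⟨h1, _, h3⟩; exact ⟨h1, h3⟩
  · rintro ⟨h1, h3⟩; exact ⟨h1, by omega, h3⟩

theorem anc_self (x : XX) : x ∈ anc x := mem_anc.2 (Or.inl rfl)

theorem anc_trans (x : XX) : ∀ y ∈ anc x, anc y ⊆ anc x := by
  intro y hy z hz
  rw [mem_anc] at hy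
  rcases hy with rfl | ⟨i, hi, rfl⟩
  · exact hz
  rw [mem_anc] at hz
  rcases hz with rfl | ⟨k, hk, rfl⟩
  · exact mem_anc.2 (Or.inr ⟨i, hi, rfl⟩)
  · have hk' : k ∈ x.1.2.1 ∧ k < i := by
      have : k ∈ x.1.2.1.filter (· < i) := hk
      simpa using this
    rw [pre_pre x hk'.2]
    exact mem_anc.2 (Or.inr ⟨k, hk'.1, rfl⟩)

theorem pre_mem_pre {x : XX} {i k : ℕ} (hi : i ∈ x.1.2.1) (hik : i < k) : pre x i ∈ anc (pre x k) := by
  rw [mem_anc]
  right
  refine ⟨i, ?_, pre_pre x hik⟩
  show i ∈ x.1.2.1.filter (· < k)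
  simp [hi, hik]

theorem anc_comp (x : XX) : ∀ y ∈ anc x, ∀ z ∈ anc x, y ∈ anc z ∨ z ∈ anc y := by
  intro y hy z hz
  rcases mem_anc.1 hy with rfl | ⟨i, hi, rfl⟩
  · exact Or.inr hz
  rcases mem_anc.1 hz with rfl | ⟨k, hk, rfl⟩
  · exact Or.inl hy
  rcases lt_trichotomy i k with h | h | h
  · exact Or.inl (pre_mem_pre hi h)
  · subst h; exact Or.inl (anc_self _)
  · exact Or.inr (pre_mem_pre hk h)

theorem anc_card_lt {x y : XX} (h : y ∈ anc x) : y = x ∨ y.1.2.1.card < x.1.2.1.card := by
  rcases mem_anc.1 h with rfl | ⟨i, hi, rfl⟩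
  · exact Or.inl rfl
  · right
    show (x.1.2.1.filter (· < i)).card < x.1.2.1.card
    apply Finset.card_lt_card
    rw [Finset.filter_ssubset]
    exact ⟨i, hi, lt_irrefl i⟩

theorem anc_inj : Function.Injective anc := by
  intro x y h
  have h1 : x ∈ anc y := h ▸ anc_self x
  have h2 : y ∈ anc x := h ▸ anc_self y
  rcases anc_card_lt h1 with h3 | h3
  · exact h3
  rcases anc_card_lt h2 with h4 | h4
  · exact h4.symm
  omega

theorem wt_pos (x : XX) : 0 < wt x := by unfold wt; positivity

theorem anc_card (x : XX) : (anc x).card ≤ 3 := by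
  unfold anc
  have h1 := Finset.card_insert_le x (x.1.2.1.image (pre x))
  have h2 := Finset.card_image_le (s := x.1.2.1) (f := pre x)
  have h3 := x.2.2
  omega

theorem anc_root (x : XX) : ∃ z ∈ anc x, wt z = 1 := by
  rcases Finset.eq_empty_or_nonempty x.1.2.1 with h | h
  · refine ⟨x, anc_self x, ?_⟩
    unfold wt EE
    rw [h]; simp
  · refine ⟨pre x (x.1.2.1.min' h), mem_anc.2 (Or.inr ⟨_, Finset.min'_mem _ h, rfl⟩), ?_⟩
    unfold wt EE
    have : (pre x (x.1.2.1.min' h)).1.2.1 = ∅ := by
      show x.1.2.1.filter (· < x.1.2.1.min' h) = ∅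
      rw [Finset.filter_eq_empty_iff]
      intro j hj
      exact not_lt.2 (Finset.min'_le _ _ hj)
    rw [this]; simp

theorem EE_pre (y : XX) (k : ℕ) : EE (pre y k) = ∑ i ∈ y.1.2.1.filter (· < k), y.1.1.getD i 0 := by
  show ∑ i ∈ y.1.2.1.filter (· < k), (y.1.1.take k).getD i 0 = _
  apply Finset.sum_congr rfl
  intro i hi
  simp only [Finset.mem_filter] at hi
  simp only [List.getD_eq_getElem?_getD]
  rw [List.getElem?_take_of_lt hi.2]

theorem DD_pre {y : XX} {i : ℕ} (hi : i ∈ y.1.2.1) :
    DD anc wt (pre y i) y = wt (pre y i) * (1 / 2) ^ (y.1.1.getD i 0) := by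
  have hsub : anc (pre y i) ⊆ anc y := anc_trans y _ (mem_anc.2 (Or.inr ⟨i, hi, rfl⟩))
  have hins : ∑ j ∈ insert i (y.1.2.1.filter (· < i)), y.1.1.getD j 0 = EE (pre y i) + y.1.1.getD i 0 := by
    rw [Finset.sum_insert (by simp), EE_pre, add_comm]
  apply le_antisymm
  · unfold DD
    apply Finset.sup_le
    intro z hz
    rw [Finset.mem_symmDiff] at hz
    have hz' : z ∈ anc y ∧ z ∉ anc (pre y i) := by
      rcases hz with h | h
      · exact absurd (hsub h.1) h.2
      · exact h
    have hE : EE (pre y i) + y.1.1.getD i 0 ≤ EE z := by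
      rw [← hins]
      rcases mem_anc.1 hz'.1 with rfl | ⟨k, hk, rfl⟩
      · apply Finset.sum_le_sum_of_subset
        intro j hj
        rw [Finset.mem_insert, Finset.mem_filter] at hj
        rcases hj with rfl | hj
        · exact hi
        · exact hj.1
      · have hik : i < k := by
          rcases lt_trichotomy i k with h | h | h
          · exact h
          · subst h; exact absurd (anc_self _) hz'.2
          · exact absurd (pre_mem_pre hk h) hz'.2
        rw [EE_pre]
        apply Finset.sum_le_sum_of_subset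
        intro j hj
        rw [Finset.mem_insert, Finset.mem_filter] at hj
        rw [Finset.mem_filter]
        rcases hj with rfl | hj
        · exact ⟨hi, hik⟩
        · exact ⟨hj.1, by omega⟩
    unfold wt
    rw [← pow_add]
    exact pow_le_pow_of_le_one zero_le (by norm_num [div_le_one]) hE
  · -- existence of the next point
    obtain ⟨z, hz1, hz2, hz3⟩ : ∃ z ∈ anc y, z ∉ anc (pre y i) ∧ EE z = EE (pre y i) + y.1.1.getD i 0 := by
      have hcardP : ∀ z : XX, z.1.2.1 = insert i (y.1.2.1.filter (· < i)) → z ∉ anc (pre y i) := by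
        intro z hz hmem
        have h1 : z.1.2.1.card = (y.1.2.1.filter (· < i)).card + 1 := by
          rw [hz, Finset.card_insert_of_notMem (by simp)]
        have h2 : (pre y i).1.2.1.card = (y.1.2.1.filter (· < i)).card := rfl
        rcases anc_card_lt hmem with h | h
        · rw [h] at h1; omega
        · omega
      rcases Finset.eq_empty_or_nonempty (y.1.2.1.filter (i < ·)) with h | h
      · have hP : y.1.2.1 = insert i (y.1.2.1.filter (· < i)) := by
          ext j
          rw [Finset.mem_insert, Finset.mem_filter]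
          constructor
          · intro hj
            rw [Finset.filter_eq_empty_iff] at h
            have := h hj
            rcases lt_trichotomy j i with h' | h' | h'
            · exact Or.inr ⟨hj, h'⟩
            · exact Or.inl h'
            · exact absurd h' this
          · rintro (rfl | h')
            · exact hi
            · exact h'.1
        refine ⟨y, anc_self y, hcardP y hP, ?_⟩
        rw [← hins, ← hP]; rfl
      · set k := (y.1.2.1.filter (i < ·)).min' h with hk
        have hkm := Finset.min'_mem _ h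
        rw [← hk, Finset.mem_filter] at hkm
        have hP : y.1.2.1.filter (· < k) = insert i (y.1.2.1.filter (· < i)) := by
          ext j
          rw [Finset.mem_insert, Finset.mem_filter, Finset.mem_filter]
          constructor
          · rintro ⟨hj, hjk⟩
            rcases lt_trichotomy j i with h' | h' | h'
            · exact Or.inr ⟨hj, h'⟩
            · exact Or.inl h'
            · exfalso
              have := Finset.min'_le _ _ (Finset.mem_filter.2 ⟨hj, h'⟩)
              rw [← hk] at this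
              omega
          · rintro (rfl | h')
            · exact ⟨hi, hkm.2⟩
            · exact ⟨h'.1, by omega⟩
        refine ⟨pre y k, mem_anc.2 (Or.inr ⟨k, hkm.1, rfl⟩), hcardP _ hP, ?_⟩
        rw [← hins, ← hP, EE_pre]
    have h1 : wt z ≤ DD anc wt (pre y i) y := le_DD anc wt (by tauto)
    refine le_trans (le_of_eq ?_) h1
    unfold wt
    rw [hz3, pow_add]

theorem pre_eq {x y : XX} (h0 : x.1.2.2 = 0) (h1 : x.1.1 <+: y.1.1)
    (h3 : x.1.2.1 = y.1.2.1.filter (· < x.1.1.length)) : pre y x.1.1.length = x := by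
  apply Subtype.ext
  show (y.1.1.take x.1.1.length, y.1.2.1.filter (· < x.1.1.length), 0) = x.1
  rw [← h3, ← List.prefix_iff_eq_take.1 h1, ← h0]

theorem spaceX : ∃ tX : TopologicalSpace XX, @IsCompletelyMetrizableSpace _ tX ∧
    ∀ f : XX → ℝ, @Continuous _ _ tX _ f ↔ CX f := by
  refine ⟨(DMS anc wt anc_inj wt_pos).toUniformSpace.toTopologicalSpace,
    @IsCompletelyMetrizableSpace.mk XX (DMS anc wt anc_inj wt_pos).toUniformSpace.toTopologicalSpace
      ⟨DMS anc wt anc_inj wt_pos, rfl,
    DMS_complete anc wt anc_inj wt_pos anc_self anc_trans anc_comp anc_card anc_root⟩, ?_⟩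
  intro f
  let _ := DMS anc wt anc_inj wt_pos
  rw [Metric.continuous_iff]
  have hdist : ∀ a b : XX, dist a b = (DD anc wt a b : ℝ) := fun a b => rfl
  constructor
  · intro hf x hx0 ε hε
    obtain ⟨δ, hδ, hfδ⟩ := hf x ε hε
    obtain ⟨M, hM⟩ := exists_pow_lt_of_lt_one hδ (by norm_num : (1/2:ℝ) < 1)
    refine ⟨M, fun y h1 h2 h3 h4 => ?_⟩
    have hp := pre_eq hx0 h1 h3
    have hD := DD_pre h2
    rw [hp] at hD
    have hd : dist y x < δ := by
      rw [hdist, DD_comm, hD]
      push_cast
      have hw1 : (wt x : ℝ) ≤ 1 := by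
        unfold wt
        push_cast
        exact pow_le_one₀ (by norm_num) (by norm_num)
      have hpw : ((1:ℝ) / 2) ^ (y.1.1.getD x.1.1.length 0) ≤ (1/2) ^ M :=
        pow_le_pow_of_le_one (by norm_num) (by norm_num) h4
      have hpos : (0:ℝ) ≤ (1 / 2) ^ (y.1.1.getD x.1.1.length 0) := by positivity
      calc (wt x : ℝ) * (1 / 2) ^ (y.1.1.getD x.1.1.length 0) ≤ 1 * (1 / 2) ^ (y.1.1.getD x.1.1.length 0) :=
            mul_le_mul_of_nonneg_right hw1 hpos
        _ ≤ (1/2) ^ M := by rw [one_mul]; exact hpw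
        _ < δ := hM
    have := hfδ y hd
    rw [Real.dist_eq] at this
    exact this.le
  · intro hf x ε hε
    by_cases hx0 : x.1.2.2 = 0
    · obtain ⟨M, hM⟩ := hf x hx0 (ε / 2) (by positivity)
      have hwx : (0:ℝ) < wt x := by exact_mod_cast wt_pos x
      refine ⟨wt x * (1 / 2) ^ M, by positivity, fun y hy => ?_⟩
      rw [hdist, DD_comm] at hy
      have hxy : x ∈ anc y := by
        by_contra hcon
        have h1 : wt x ≤ DD anc wt x y := le_DD anc wt (by have := anc_self x; tauto)
        have h2 : (wt x : ℝ) ≤ DD anc wt x y := by exact_mod_cast h1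
        have h3 : ((1:ℝ) / 2) ^ M ≤ 1 := pow_le_one₀ (by norm_num) (by norm_num)
        nlinarith
      rcases mem_anc.1 hxy with h | ⟨i, hi, h⟩
      · rw [h, dist_self]; exact hε
      · subst h
        rw [DD_pre hi] at hy
        push_cast at hy
        have hlt : ((1:ℝ) / 2) ^ (y.1.1.getD i 0) < (1/2) ^ M := lt_of_mul_lt_mul_left hy hwx.le
        have hM' : M < y.1.1.getD i 0 := by
          rwa [pow_lt_pow_iff_right_of_lt_one₀ (by norm_num) (by norm_num)] at hlt
        have hil : i < y.1.1.length := y.2.1 i hi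
        have hlen : (pre y i).1.1.length = i := by
          show (y.1.1.take i).length = i
          rw [List.length_take]; omega
        have := hM y (List.take_prefix i y.1.1) (by rw [hlen]; exact hi) (by rw [hlen]; rfl) (by rw [hlen]; exact hM'.le)
        rw [Real.dist_eq]
        linarith
    · have hwx : (0:ℝ) < wt x := by exact_mod_cast wt_pos x
      refine ⟨wt x, hwx, fun y hy => ?_⟩
      rw [hdist, DD_comm] at hy
      have hxy : x ∈ anc y := by
        by_contra hcon
        have h1 : wt x ≤ DD anc wt x y := le_DD anc wt (by have := anc_self x; tauto)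
        have h2 : (wt x : ℝ) ≤ DD anc wt x y := by exact_mod_cast h1
        linarith
      rcases mem_anc.1 hxy with h | ⟨i, hi, h⟩
      · rw [h, dist_self]; exact hε
      · exfalso; apply hx0; rw [← h]; rfl

end Pool.Agent.Helper830.MPel.JobspaceX
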