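import Pool.Agent.Helper830.MPel.Defs

set_option autoImplicit false
open TopologicalSpace

namespace Pool.Agent.Helper830.MPel.Jobtriv


noncomputable section Aux

private lemma ucMax {X : Type*} [UniformSpace X] {f g : X → ℝ} (hf : UniformContinuous f)
    (hg : UniformContinuous g) : UniformContinuous (fun x => max (f x) (g x)) := by
  have h : UniformContinuous (fun p : ℝ × ℝ => max p.1 p.2) :=
    (LipschitzWith.prod_fst.max LipschitzWith.prod_snd).uniformContinuous
  exact h.comp (hf.prodMk hg)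

private lemma ucMin {X : Type*} [UniformSpace X] {f g : X → ℝ} (hf : UniformContinuous f)
    (hg : UniformContinuous g) : UniformContinuous (fun x => min (f x) (g x)) := by
  have h : UniformContinuous (fun p : ℝ × ℝ => min p.1 p.2) :=
    (LipschitzWith.prod_fst.min LipschitzWith.prod_snd).uniformContinuous
  exact h.comp (hf.prodMk hg)

private lemma ucSup {X ι : Type*} [UniformSpace X] (s : Finset ι) (hs : s.Nonempty)
    (f : ι → X → ℝ) (hf : ∀ i, UniformContinuous (f i)) :
    UniformContinuous (fun x => s.sup' hs (fun i => f i x)) := by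
  classical
  induction hs using Finset.Nonempty.cons_induction with
  | singleton a => simpa using hf a
  | cons a s h hs ih =>
    simp only [Finset.sup'_cons hs]
    exact ucMax (hf a) ih

private lemma ucInf {X ι : Type*} [UniformSpace X] (s : Finset ι) (hs : s.Nonempty)
    (f : ι → X → ℝ) (hf : ∀ i, UniformContinuous (f i)) :
    UniformContinuous (fun x => s.inf' hs (fun i => f i x)) := by
  classical
  induction hs using Finset.Nonempty.cons_induction with
  | singleton a => simpa using hf a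
  | cons a s h hs ih =>
    simp only [Finset.inf'_cons hs]
    exact ucMin (hf a) ih

private lemma neR (m : ℕ) : (Finset.range (m + 1)).Nonempty := ⟨0, by simp⟩

private def osc (m : ℕ) (a : ℕ → ℝ) (k : ℕ) : ℝ :=
  (Finset.range (m + 1)).sup' (neR m) (fun j => |a (max k j) - a k|)

private def AA (m : ℕ) (a : ℕ → ℝ) (z : ℝ) : ℝ :=
  (Finset.range (m + 1)).inf' (neR m) (fun k => 2 ^ k * (osc m a k + z))

private def BB (m : ℕ) (a : ℕ → ℝ) (w : ℝ) : ℝ :=
  (Finset.range (m + 1)).sup' (neR m) (fun k => w / 2 ^ k - osc m a k)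

private lemma osc_nonneg (m : ℕ) (a : ℕ → ℝ) (k : ℕ) : 0 ≤ osc m a k := by
  have h := Finset.le_sup' (fun j => |a (max k j) - a k|) (Finset.mem_range.2 (Nat.succ_pos m))
  exact (abs_nonneg _).trans h

private lemma osc_self (m : ℕ) (a : ℕ → ℝ) : osc m a m = 0 := by
  apply le_antisymm _ (osc_nonneg m a m)
  apply Finset.sup'_le
  intro j hj
  rw [Finset.mem_range] at hj
  rw [max_eq_left (by omega), sub_self, abs_zero]

private lemma le_osc (m : ℕ) (a : ℕ → ℝ) (k j : ℕ) (hk : k ≤ j) (hj : j ≤ m) :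
    |a j - a k| ≤ osc m a k := by
  have h := Finset.le_sup' (fun j => |a (max k j) - a k|) (Finset.mem_range.2 (Nat.lt_succ_of_le hj))
  simp only [max_eq_right hk] at h
  exact h

private lemma osc_le (m : ℕ) (a : ℕ → ℝ) (k : ℕ) (hkm : k ≤ m) (c : ℝ)
    (h : ∀ j, k ≤ j → j ≤ m → |a j - a k| ≤ c) : osc m a k ≤ c := by
  apply Finset.sup'_le
  intro j hj
  rw [Finset.mem_range] at hj
  exact h _ (le_max_left _ _) (by omega)

private lemma osc_congr (m : ℕ) (a b : ℕ → ℝ) (h : ∀ j, j ≤ m → a j = b j) (k : ℕ) (hk : k ≤ m) :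
    osc m a k = osc m b k := by
  apply Finset.sup'_congr _ rfl
  intro j hj
  rw [Finset.mem_range] at hj
  rw [h _ (by omega), h k hk]

private lemma AA_congr (m : ℕ) (a b : ℕ → ℝ) (h : ∀ j, j ≤ m → a j = b j) (z : ℝ) :
    AA m a z = AA m b z := by
  apply Finset.inf'_congr _ rfl
  intro j hj
  rw [Finset.mem_range] at hj
  rw [osc_congr m a b h j (by omega)]

private lemma BB_congr (m : ℕ) (a b : ℕ → ℝ) (h : ∀ j, j ≤ m → a j = b j) (z : ℝ) :
    BB m a z = BB m b z := by
  apply Finset.sup'_congr _ rfl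
  intro j hj
  rw [Finset.mem_range] at hj
  rw [osc_congr m a b h j (by omega)]

private lemma AA_le (m : ℕ) (a : ℕ → ℝ) (z : ℝ) (k : ℕ) (hk : k ≤ m) :
    AA m a z ≤ 2 ^ k * (osc m a k + z) :=
  Finset.inf'_le (fun k => 2 ^ k * (osc m a k + z)) (Finset.mem_range.2 (Nat.lt_succ_of_le hk))

private lemma AA_ex (m : ℕ) (a : ℕ → ℝ) (z : ℝ) :
    ∃ k ≤ m, AA m a z = 2 ^ k * (osc m a k + z) := by
  obtain ⟨k, hk, h⟩ := Finset.exists_mem_eq_inf' (neR m) (fun k => 2 ^ k * (osc m a k + z))
  exact ⟨k, Nat.lt_succ_iff.1 (Finset.mem_range.1 hk), h⟩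

private lemma le_BB (m : ℕ) (a : ℕ → ℝ) (w : ℝ) (k : ℕ) (hk : k ≤ m) :
    w / 2 ^ k - osc m a k ≤ BB m a w :=
  Finset.le_sup' (fun k => w / 2 ^ k - osc m a k) (Finset.mem_range.2 (Nat.lt_succ_of_le hk))

private lemma BB_ex (m : ℕ) (a : ℕ → ℝ) (w : ℝ) :
    ∃ k ≤ m, BB m a w = w / 2 ^ k - osc m a k := by
  obtain ⟨k, hk, h⟩ := Finset.exists_mem_eq_sup' (neR m) (fun k => w / 2 ^ k - osc m a k)
  exact ⟨k, Nat.lt_succ_iff.1 (Finset.mem_range.1 hk), h⟩

private lemma BB_AA (m : ℕ) (a : ℕ → ℝ) (z : ℝ) : BB m a (AA m a z) = z := by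
  apply le_antisymm
  · obtain ⟨k, hk, h⟩ := BB_ex m a (AA m a z)
    rw [h]
    have h1 := AA_le m a z k hk
    have h2 : AA m a z / 2 ^ k ≤ osc m a k + z := by
      rw [div_le_iff₀ (by positivity)]
      linarith
    linarith
  · obtain ⟨k, hk, h⟩ := AA_ex m a z
    have h1 := le_BB m a (AA m a z) k hk
    rw [h] at h1 ⊢
    rw [mul_div_cancel_left₀ _ (by positivity)] at h1
    linarith

private lemma AA_BB (m : ℕ) (a : ℕ → ℝ) (w : ℝ) : AA m a (BB m a w) = w := by
  apply le_antisymm
  · obtain ⟨k, hk, h⟩ := BB_ex m a w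
    have h1 := AA_le m a (BB m a w) k hk
    rw [h] at h1 ⊢
    have h2 : 2 ^ k * (osc m a k + (w / 2 ^ k - osc m a k)) = w := by
      field_simp
      ring
    rw [h2] at h1
    exact h1
  · obtain ⟨k, hk, h⟩ := AA_ex m a (BB m a w)
    rw [h]
    have h1 := le_BB m a w k hk
    have h2 : w / 2 ^ k ≤ osc m a k + BB m a w := by linarith
    rw [div_le_iff₀ (by positivity)] at h2
    linarith

private lemma AA_zero (m : ℕ) (a : ℕ → ℝ) : AA m a 0 = 0 := by
  apply le_antisymm
  · have := AA_le m a 0 m le_rfl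
    rw [osc_self] at this
    simpa using this
  · obtain ⟨k, hk, h⟩ := AA_ex m a 0
    rw [h]
    have := osc_nonneg m a k
    positivity

private lemma BB_zero (m : ℕ) (a : ℕ → ℝ) : BB m a 0 = 0 := by
  have := BB_AA m a 0
  rwa [AA_zero] at this

private lemma AA_nonneg (m : ℕ) (a : ℕ → ℝ) (z : ℝ) (hz : 0 ≤ z) : 0 ≤ AA m a z := by
  obtain ⟨k, hk, h⟩ := AA_ex m a z
  rw [h]
  have := osc_nonneg m a k
  positivity

private lemma BB_nonneg (m : ℕ) (a : ℕ → ℝ) (w : ℝ) (hw : 0 ≤ w) : 0 ≤ BB m a w := by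
  have := le_BB m a w m le_rfl
  rw [osc_self] at this
  have h : 0 ≤ w / 2 ^ m := by positivity
  linarith

private def FF : ℕ → (ℕ → ℝ) → ℝ → ℝ
  | 0, _, x => x
  | m + 1, a, x => AA m a (max (x - a m) 0) - AA m a (max (-(x - a m)) 0)

private def GG : ℕ → (ℕ → ℝ) → ℝ → ℝ
  | 0, _, y => y
  | m + 1, a, y => a m + BB m a (max y 0) - BB m a (max (-y) 0)

private lemma FF_abs (m : ℕ) (a : ℕ → ℝ) (x : ℝ) : |FF (m + 1) a x| = AA m a |x - a m| := by
  simp only [FF]
  rcases le_total 0 (x - a m) with h | h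
  · rw [max_eq_left h, max_eq_right (by linarith), AA_zero, sub_zero, abs_of_nonneg h,
      abs_of_nonneg (AA_nonneg m a _ h)]
  · rw [max_eq_right h, max_eq_left (by linarith), AA_zero, zero_sub, abs_neg, abs_of_nonpos h,
      abs_of_nonneg (AA_nonneg m a _ (by linarith))]

private lemma GG_FF (n : ℕ) (a : ℕ → ℝ) (x : ℝ) : GG n a (FF n a x) = x := by
  cases n with
  | zero => rfl
  | succ m =>
    simp only [FF, GG]
    rcases le_total 0 (x - a m) with h | h
    · rw [max_eq_left h, max_eq_right (by linarith : -(x - a m) ≤ 0), AA_zero, sub_zero,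
        max_eq_left (AA_nonneg m a _ h), max_eq_right (by linarith [AA_nonneg m a _ h]),
        BB_AA, BB_zero]
      ring
    · have h' : 0 ≤ -(x - a m) := by linarith
      rw [max_eq_right h, max_eq_left h', AA_zero, zero_sub, neg_neg,
        max_eq_right (by linarith [AA_nonneg m a _ h']), max_eq_left (AA_nonneg m a _ h'),
        BB_AA, BB_zero]
      ring

private lemma FF_GG (n : ℕ) (a : ℕ → ℝ) (y : ℝ) : FF n a (GG n a y) = y := by
  cases n with
  | zero => rfl
  | succ m =>
    simp only [FF, GG]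
    rcases le_total 0 y with h | h
    · rw [max_eq_left h, max_eq_right (by linarith : -y ≤ 0), BB_zero, sub_zero,
        add_sub_cancel_left,
        max_eq_left (BB_nonneg m a _ h), max_eq_right (by linarith [BB_nonneg m a _ h]),
        AA_BB, AA_zero]
      ring
    · have h' : 0 ≤ -y := by linarith
      rw [max_eq_right h, max_eq_left h', BB_zero, add_zero, sub_sub_cancel_left, neg_neg,
        max_eq_right (by linarith [BB_nonneg m a _ h']), max_eq_left (BB_nonneg m a _ h'),
        AA_BB, AA_zero]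
      ring

private lemma FF_congr (n : ℕ) (a b : ℕ → ℝ) (h : ∀ j, j < n → a j = b j) (x : ℝ) :
    FF n a x = FF n b x := by
  cases n with
  | zero => rfl
  | succ m =>
    simp only [FF]
    rw [AA_congr m a b (fun j hj => h j (by omega)), AA_congr m a b (fun j hj => h j (by omega)),
      h m (by omega)]

private lemma GG_congr (n : ℕ) (a b : ℕ → ℝ) (h : ∀ j, j < n → a j = b j) (x : ℝ) :
    GG n a x = GG n b x := by
  cases n with
  | zero => rfl
  | succ m =>
    simp only [GG]
    rw [BB_congr m a b (fun j hj => h j (by omega)), BB_congr m a b (fun j hj => h j (by omega)),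
      h m (by omega)]

private lemma uc_ev (k : ℕ) : UniformContinuous (fun p : (ℕ → ℝ) × ℝ => p.1 k) :=
  (Pi.uniformContinuous_proj (fun _ : ℕ => ℝ) k).comp uniformContinuous_fst

private lemma uc_osc {X : Type*} [UniformSpace X] (m k : ℕ) (f : X → ℕ → ℝ)
    (hf : ∀ j, UniformContinuous (fun x => f x j)) : UniformContinuous (fun x => osc m (f x) k) := by
  apply ucSup
  intro j
  have h := (hf (max k j)).sub (hf k)
  exact (Real.uniformContinuous_abs.comp h)

private lemma uc_AA {X : Type*} [UniformSpace X] (m : ℕ) (f : X → ℕ → ℝ) (z : X → ℝ)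
    (hf : ∀ j, UniformContinuous (fun x => f x j)) (hz : UniformContinuous z) :
    UniformContinuous (fun x => AA m (f x) (z x)) := by
  apply ucInf
  intro k
  have h := (uc_osc m k f hf).add hz
  exact (h.const_mul' ((2:ℝ) ^ k))

private lemma uc_BB {X : Type*} [UniformSpace X] (m : ℕ) (f : X → ℕ → ℝ) (z : X → ℝ)
    (hf : ∀ j, UniformContinuous (fun x => f x j)) (hz : UniformContinuous z) :
    UniformContinuous (fun x => BB m (f x) (z x)) := by
  apply ucSup
  intro k
  have h1 : UniformContinuous (fun x => z x / 2 ^ k) := by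
    have := hz.const_mul' ((2:ℝ) ^ k)⁻¹
    refine this.congr ?_
    intro x
    simp [div_eq_inv_mul]
  exact h1.sub (uc_osc m k f hf)

private lemma uc_FF {X : Type*} [UniformSpace X] (n : ℕ) (f : X → ℕ → ℝ) (z : X → ℝ)
    (hf : ∀ j, UniformContinuous (fun x => f x j)) (hz : UniformContinuous z) :
    UniformContinuous (fun x => FF n (f x) (z x)) := by
  cases n with
  | zero => exact hz
  | succ m =>
    simp only [FF]
    have h1 : UniformContinuous (fun x => max (z x - f x m) 0) :=
      ucMax (hz.sub (hf m)) uniformContinuous_const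
    have h2 : UniformContinuous (fun x => max (-(z x - f x m)) 0) :=
      ucMax (hz.sub (hf m)).neg uniformContinuous_const
    exact (uc_AA m f _ hf h1).sub (uc_AA m f _ hf h2)

private lemma uc_GG {X : Type*} [UniformSpace X] (n : ℕ) (f : X → ℕ → ℝ) (z : X → ℝ)
    (hf : ∀ j, UniformContinuous (fun x => f x j)) (hz : UniformContinuous z) :
    UniformContinuous (fun x => GG n (f x) (z x)) := by
  cases n with
  | zero => exact hz
  | succ m =>
    simp only [GG]
    have h1 : UniformContinuous (fun x => max (z x) 0) :=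
      ucMax hz uniformContinuous_const
    have h2 : UniformContinuous (fun x => max (-(z x)) 0) :=
      ucMax hz.neg uniformContinuous_const
    exact ((hf m).add (uc_BB m f _ hf h1)).sub (uc_BB m f _ hf h2)

private def Inv (y : List ℕ → ℝ) (t : List ℕ) : ℝ :=
  GG t.length (fun k => if _h : k < t.length then Inv y (t.take k) else 0) (y t)
termination_by t.length
decreasing_by
  simp only [List.length_take]
  omega

private lemma Inv_eq (y : List ℕ → ℝ) (t : List ℕ) :
    Inv y t = GG t.length (fun k => Inv y (t.take k)) (y t) := by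
  rw [Inv]
  apply GG_congr
  intro j hj
  rw [dif_pos hj]

private def Fwd (g : List ℕ → ℝ) (t : List ℕ) : ℝ :=
  FF t.length (fun k => g (t.take k)) (g t)

private lemma Fwd_Inv (y : List ℕ → ℝ) : Fwd (Inv y) = y := by
  funext t
  rw [Fwd]
  conv_lhs => rw [Inv_eq y t]
  exact FF_GG _ _ _

private lemma Inv_Fwd (g : List ℕ → ℝ) : Inv (Fwd g) = g := by
  have h : ∀ n, ∀ t : List ℕ, t.length = n → Inv (Fwd g) t = g t := by
    intro n
    induction n using Nat.strong_induction_on with
    | _ n ih =>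
      intro t ht
      rw [Inv_eq, Fwd]
      rw [GG_congr t.length _ (fun k => g (t.take k))]
      · exact GG_FF _ _ _
      · intro j hj
        exact ih j (by omega) _ (by rw [List.length_take]; omega)
  funext t
  exact h _ t rfl

private lemma uc_Fwd : UniformContinuous Fwd := by
  rw [uniformContinuous_pi]
  intro t
  exact uc_FF t.length (fun (g : List ℕ → ℝ) k => g (t.take k)) (fun g => g t)
    (fun j => Pi.uniformContinuous_proj _ _) (Pi.uniformContinuous_proj _ _)

private lemma uc_Inv : UniformContinuous Inv := by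
  rw [uniformContinuous_pi]
  have h : ∀ n, ∀ t : List ℕ, t.length = n → UniformContinuous (fun y => Inv y t) := by
    intro n
    induction n using Nat.strong_induction_on with
    | _ n ih =>
      intro t ht
      have e : (fun y => Inv y t) = fun y => GG t.length
          (fun k => if h : k < t.length then Inv y (t.take k) else 0) (y t) := by
        funext y
        rw [Inv]
      rw [e]
      apply uc_GG t.length (fun (y : List ℕ → ℝ) k =>
        if h : k < t.length then Inv y (t.take k) else 0) (fun y => y t)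
      · intro j
        by_cases hj : j < t.length
        · simp only [dif_pos hj]
          exact ih j (by omega) _ (by rw [List.length_take]; omega)
        · simp only [dif_neg hj]
          exact uniformContinuous_const
      · exact Pi.uniformContinuous_proj _ _
  intro t
  exact h _ t rfl

private lemma keyA (a : ℕ → ℝ) (k m : ℕ) (hkm : k ≤ m) (e : ℝ)
    (h : ∀ j, k ≤ j → j ≤ m + 1 → |a j - a k| ≤ e) :
    AA m a |a (m + 1) - a m| ≤ 2 ^ k * (3 * e) := by
  refine (AA_le m a _ k hkm).trans ?_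
  apply mul_le_mul_of_nonneg_left _ (by positivity)
  have h1 := osc_le m a k hkm e (fun j h1 h2 => h j h1 (by omega))
  have h2 := h (m + 1) (by omega) le_rfl
  have h3 := h m hkm (by omega)
  have h4 : |a (m + 1) - a m| ≤ |a (m + 1) - a k| + |a m - a k| := by
    have : a (m + 1) - a m = (a (m + 1) - a k) - (a m - a k) := by ring
    rw [this]
    exact abs_sub _ _
  linarith

private lemma keyB (a : ℕ → ℝ) (k n : ℕ) (δ : ℝ) (hδ : 0 ≤ δ)
    (h : ∀ j, k ≤ j → j + 1 ≤ n → AA j a |a (j + 1) - a j| ≤ δ) :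
    ∀ j, k < j → j ≤ n → |a j - a k| ≤ (3 - 2 * (1 / 2) ^ j) * δ := by
  intro j
  induction j using Nat.strong_induction_on with
  | _ j ih =>
    intro hkj hjn
    obtain ⟨j', rfl⟩ : ∃ j', j = j' + 1 := ⟨j - 1, by omega⟩
    have h1 := h j' (by omega) hjn
    obtain ⟨i, hi, h2⟩ := AA_ex j' a |a (j' + 1) - a j'|
    rw [h2] at h1
    have h3 : osc j' a i + |a (j' + 1) - a j'| ≤ (1 / 2) ^ i * δ := by
      have h4 : (0:ℝ) < 2 ^ i := by positivity
      have h5 : ((1:ℝ) / 2) ^ i = 1 / 2 ^ i := by rw [div_pow, one_pow]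
      rw [h5, one_div, ← div_eq_inv_mul, le_div_iff₀ h4]
      linarith
    have h4 : ∀ l, i ≤ l → l ≤ j' → |a l - a i| ≤ (1 / 2) ^ i * δ := by
      intro l h5 h6
      have := le_osc j' a i l h5 h6
      have := abs_nonneg (a (j' + 1) - a j')
      linarith
    have h5 : |a (j' + 1) - a i| ≤ (1 / 2) ^ i * δ := by
      have h6 : |a (j' + 1) - a i| ≤ |a (j' + 1) - a j'| + |a j' - a i| := by
        have : a (j' + 1) - a i = (a (j' + 1) - a j') + (a j' - a i) := by ring
        rw [this]
        exact abs_add_le _ _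
      have := le_osc j' a i j' hi le_rfl
      linarith
    have hp1 : ((1:ℝ) / 2) ^ (j' + 1) = (1 / 2) ^ j' / 2 := by rw [pow_succ]; ring
    have hp2 : ((1:ℝ) / 2) ^ j' ≤ 1 := pow_le_one₀ (by norm_num) (by norm_num)
    have hp3 : ((1:ℝ) / 2) ^ i ≤ 1 := pow_le_one₀ (by norm_num) (by norm_num)
    have hp4 : ((1:ℝ) / 2) ^ j' ≤ (1 / 2) ^ i := pow_le_pow_of_le_one (by norm_num) (by norm_num) hi
    rcases le_or_gt i k with hik | hik
    · have h6 := h4 k hik (by omega)
      have h7 : |a (j' + 1) - a k| ≤ |a (j' + 1) - a i| + |a k - a i| := by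
        have : a (j' + 1) - a k = (a (j' + 1) - a i) - (a k - a i) := by ring
        rw [this]
        exact abs_sub _ _
      have h8 : (1 / 2) ^ i * δ ≤ 1 * δ := mul_le_mul_of_nonneg_right hp3 hδ
      have h9 : ((1:ℝ) / 2) ^ j' * δ ≤ 1 * δ := mul_le_mul_of_nonneg_right hp2 hδ
      rw [hp1]
      nlinarith
    · have h6 := ih i (by omega) hik (by omega)
      have h7 : |a (j' + 1) - a k| ≤ |a (j' + 1) - a i| + |a i - a k| := by
        have : a (j' + 1) - a k = (a (j' + 1) - a i) + (a i - a k) := by ring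
        rw [this]
        exact abs_add_le _ _
      have h9 : ((1:ℝ) / 2) ^ j' * δ ≤ (1 / 2) ^ i * δ := mul_le_mul_of_nonneg_right hp4 hδ
      rw [hp1]
      nlinarith

private lemma Fwd_take (g : List ℕ → ℝ) (t : List ℕ) (m : ℕ) (hm : m + 1 ≤ t.length) :
    |Fwd g (t.take (m + 1))| =
      AA m (fun i => g (t.take i)) |g (t.take (m + 1)) - g (t.take m)| := by
  have hl : (t.take (m + 1)).length = m + 1 := by rw [List.length_take]; omega
  rw [Fwd, hl, FF_abs]
  have h1 : ∀ i, i ≤ m → g ((t.take (m + 1)).take i) = g (t.take i) := by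
    intro i hi
    rw [List.take_take, min_eq_left (by omega)]
  rw [AA_congr m _ (fun i => g (t.take i)) h1]
  simp only [h1 m le_rfl]

private lemma take_prefix {s t : List ℕ} (h : s <+: t) : t.take s.length = s := by
  exact (List.prefix_iff_eq_take.1 h).symm

end Aux

theorem triv : ∃ Φ : (List ℕ → ℝ) ≃ᵤ (List ℕ → ℝ), ∀ g, CT g ↔ C0 (Φ g) := by
  refine ⟨{ toFun := Fwd, invFun := Inv, left_inv := Inv_Fwd, right_inv := Fwd_Inv,
            uniformContinuous_toFun := uc_Fwd, uniformContinuous_invFun := uc_Inv }, ?_⟩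
  intro g
  show CT g ↔ C0 (Fwd g)
  have hext : ∀ (s t : List ℕ) (M : ℕ), s <+: t → s.length < t.length →
      M ≤ t.getD s.length 0 → ∀ j, s.length < j → j ≤ t.length →
      s <+: t.take j ∧ s.length < (t.take j).length ∧ M ≤ (t.take j).getD s.length 0 := by
    intro s t M h1 h2 h3 j hj1 hj2
    refine ⟨?_, ?_, ?_⟩
    · rw [List.prefix_take_iff]
      exact ⟨h1, hj1.le⟩
    · rw [List.length_take]; omega
    · rw [List.getD_eq_getElem?_getD] at h3 ⊢
      rw [List.getElem?_take, if_pos hj1]
      exact h3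
  constructor
  · intro hg s ε hε
    obtain ⟨M, hM⟩ := hg s (ε / (3 * 2 ^ s.length)) (by positivity)
    refine ⟨M, fun t h1 h2 h3 => ?_⟩
    obtain ⟨m, hm⟩ : ∃ m, t.length = m + 1 := ⟨t.length - 1, by omega⟩
    have h4 : ∀ j, s.length ≤ j → j ≤ m + 1 → |g (t.take j) - g (t.take s.length)| ≤
        ε / (3 * 2 ^ s.length) := by
      intro j hj1 hj2
      rcases hj1.eq_or_lt with h5 | h5
      · rw [← h5, sub_self, abs_zero]; positivity
      · obtain ⟨h6, h7, h8⟩ := hext s t M h1 h2 h3 j h5 (by omega)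
        rw [take_prefix h1]
        exact hM _ h6 h7 h8
    have h5 := keyA (fun i => g (t.take i)) s.length m (by omega) _ h4
    have h6 := Fwd_take g t m (by omega)
    have h7 : t.take (m + 1) = t := by
      rw [← hm]; exact List.take_length
    rw [h7] at h6
    simp only [h7] at h5
    rw [h6]
    refine h5.trans (le_of_eq ?_)
    field_simp
  · intro hy s ε hε
    obtain ⟨M, hM⟩ := hy s (ε / 3) (by positivity)
    refine ⟨M, fun t h1 h2 h3 => ?_⟩
    have h4 := keyB (fun i => g (t.take i)) s.length t.length (ε / 3) (by positivity) (by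
      intro j hj1 hj2
      try simp only
      rw [← Fwd_take g t j hj2]
      obtain ⟨h6, h7, h8⟩ := hext s t M h1 h2 h3 (j + 1) (by omega) hj2
      exact hM _ h6 h7 h8) t.length h2 le_rfl
    simp only [List.take_length, take_prefix h1] at h4
    refine h4.trans ?_
    have : (0:ℝ) ≤ (1 / 2) ^ t.length := by positivity
    nlinarith

end Pool.Agent.Helper830.MPel.Jobtriv
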