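import Pool.Agent.Helper830.MPel.GE3
import Pool.Agent.Helper830.MPel.Triv
import Pool.Agent.Helper830.MPel.Diff
import Pool.Agent.Helper830.MPel.SpaceT
import Pool.Agent.Helper830.MPel.SpaceX

set_option autoImplicit false
open TopologicalSpace

namespace Pool.Agent.Helper830.MPel

noncomputable def nodeE (n : ℕ) : (Unit ⊕ JJ n → ℝ) ≃ᵤ (JJ n → ℝ) := (node n).choose

theorem nodeE_fwd (n : ℕ) (i : ℕ) (c : ℝ) (x : Unit ⊕ JJ n → ℝ) (hc : 0 ≤ c)
    (h1 : i < n → |x (.inl ())| ≤ c) (h2 : ∀ k : JJ n, i ∈ k.1.1 → |x (.inr k)| ≤ c)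
    (k : JJ n) (hk : i ∈ k.1.1) : |nodeE n x k| ≤ kap i ^ 2 * c := by
  refine (node n).choose_spec.1 i c x hc ?_ k hk
  rintro (k | k) hk
  · exact h1 hk
  · exact h2 k hk

theorem nodeE_bwd (n : ℕ) (i : ℕ) (c : ℝ) (x : JJ n → ℝ) (hc : 0 ≤ c)
    (h2 : ∀ k : JJ n, i ∈ k.1.1 → |x k| ≤ c) :
    (i < n → |(nodeE n).symm x (.inl ())| ≤ kap i ^ 2 * c) ∧
    (∀ k : JJ n, i ∈ k.1.1 → |(nodeE n).symm x (.inr k)| ≤ kap i ^ 2 * c) := by
  have h := (node n).choose_spec.2 i c x hc h2
  exact ⟨fun hi => h (.inl ()) hi, fun k hk => h (.inr k) hk⟩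

def mkX (t : List ℕ) (k : JJ t.length) : XX := ⟨(t, k.1.1, k.2), k.1.2⟩

def kOf (x : XX) : JJ x.1.1.length := (⟨x.1.2.1, x.2⟩, x.1.2.2)

noncomputable def FF : (List ℕ ⊕ XX → ℝ) ≃ᵤ (XX → ℝ) where
  toFun z x := nodeE x.1.1.length (Sum.elim (fun _ => z (.inl x.1.1))
    (fun k => z (.inr (mkX x.1.1 k)))) (kOf x)
  invFun w := Sum.elim (fun t => (nodeE t.length).symm (fun k => w (mkX t k)) (.inl ()))
    (fun x => (nodeE x.1.1.length).symm (fun k => w (mkX x.1.1 k)) (.inr (kOf x)))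
  left_inv z := by
    funext k
    rcases k with t | x
    · exact congrFun ((nodeE t.length).symm_apply_apply (Sum.elim (fun _ => z (.inl t))
        (fun k => z (.inr (mkX t k))))) (.inl ())
    · exact congrFun ((nodeE x.1.1.length).symm_apply_apply (Sum.elim (fun _ => z (.inl x.1.1))
        (fun k => z (.inr (mkX x.1.1 k))))) (.inr (kOf x))
  right_inv w := by
    funext x
    have e : Sum.elim (fun _ : Unit => (nodeE x.1.1.length).symm
          (fun k => w (mkX x.1.1 k)) (.inl ()))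
        (fun k' : JJ x.1.1.length => (nodeE x.1.1.length).symm
          (fun k => w (mkX x.1.1 k)) (.inr k')) =
        (nodeE x.1.1.length).symm (fun k => w (mkX x.1.1 k)) := by
      funext k
      rcases k with k | k <;> rfl
    exact (congrFun (congrArg (nodeE x.1.1.length) e) (kOf x)).trans
      (congrFun ((nodeE x.1.1.length).apply_symm_apply (fun k => w (mkX x.1.1 k))) (kOf x))
  uniformContinuous_toFun := by
    apply uniformContinuous_pi.2
    intro x
    refine (Pi.uniformContinuous_proj _ (kOf x)).comp ((nodeE x.1.1.length).uniformContinuous.comp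
      (uniformContinuous_pi.2 ?_))
    rintro (k | k)
    · exact Pi.uniformContinuous_proj _ _
    · exact Pi.uniformContinuous_proj _ _
  uniformContinuous_invFun := by
    apply uniformContinuous_pi.2
    rintro (t | x)
    · exact (Pi.uniformContinuous_proj _ _).comp ((nodeE t.length).symm.uniformContinuous.comp
        (uniformContinuous_pi.2 fun k => Pi.uniformContinuous_proj _ _))
    · exact (Pi.uniformContinuous_proj _ _).comp
        ((nodeE x.1.1.length).symm.uniformContinuous.comp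
        (uniformContinuous_pi.2 fun k => Pi.uniformContinuous_proj _ _))

theorem FF_apply (z : List ℕ ⊕ XX → ℝ) (x : XX) : FF z x = nodeE x.1.1.length
    (Sum.elim (fun _ => z (.inl x.1.1)) (fun k => z (.inr (mkX x.1.1 k)))) (kOf x) := rfl

theorem FF_symm_inl (w : XX → ℝ) (t : List ℕ) : FF.symm w (.inl t) =
    (nodeE t.length).symm (fun k => w (mkX t k)) (.inl ()) := rfl

theorem FF_symm_inr (w : XX → ℝ) (x : XX) : FF.symm w (.inr x) =
    (nodeE x.1.1.length).symm (fun k => w (mkX x.1.1 k)) (.inr (kOf x)) := rfl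

theorem FF_CJ (z : List ℕ ⊕ XX → ℝ) (h1 : C0 fun t => z (.inl t)) (h2 : CJ fun x => z (.inr x)) :
    CJ (FF z) := by
  intro s ε hε
  have hK : 0 < kap s.length ^ 2 := by
    have := one_le_kap s.length
    positivity
  obtain ⟨M1, hM1⟩ := h1 s (ε / kap s.length ^ 2) (by positivity)
  obtain ⟨M2, hM2⟩ := h2 s (ε / kap s.length ^ 2) (by positivity)
  refine ⟨max M1 M2, fun y hy1 hy2 hy3 => ?_⟩
  have h := nodeE_fwd y.1.1.length s.length (ε / kap s.length ^ 2) (Sum.elim
    (fun _ => z (.inl y.1.1)) (fun k => z (.inr (mkX y.1.1 k)))) (by positivity)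
    (fun hi => hM1 y.1.1 hy1 hi ((le_max_left _ _).trans hy3))
    (fun k hk => hM2 (mkX y.1.1 k) hy1 hk ((le_max_right _ _).trans hy3)) (kOf y) hy2
  rw [FF_apply]
  refine h.trans (le_of_eq ?_)
  rw [mul_comm, div_mul_cancel₀ _ hK.ne']

theorem FF_symm_CJ (w : XX → ℝ) (h : CJ w) :
    (C0 fun t => FF.symm w (.inl t)) ∧ (CJ fun x => FF.symm w (.inr x)) := by
  constructor
  · intro s ε hε
    have hK : 0 < kap s.length ^ 2 := by
      have := one_le_kap s.length
      positivity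
    obtain ⟨M, hM⟩ := h s (ε / kap s.length ^ 2) (by positivity)
    refine ⟨M, fun t ht1 ht2 ht3 => ?_⟩
    have h := (nodeE_bwd t.length s.length (ε / kap s.length ^ 2) (fun k => w (mkX t k))
      (by positivity) (fun k hk => hM (mkX t k) ht1 hk ht3)).1 ht2
    simp only [FF_symm_inl]
    refine h.trans (le_of_eq ?_)
    rw [mul_comm, div_mul_cancel₀ _ hK.ne']
  · intro s ε hε
    have hK : 0 < kap s.length ^ 2 := by
      have := one_le_kap s.length
      positivity
    obtain ⟨M, hM⟩ := h s (ε / kap s.length ^ 2) (by positivity)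
    refine ⟨M, fun y hy1 hy2 hy3 => ?_⟩
    have h := (nodeE_bwd y.1.1.length s.length (ε / kap s.length ^ 2)
      (fun k => w (mkX y.1.1 k))
      (by positivity) (fun k hk => hM (mkX y.1.1 k) hy1 hk hy3)).2 (kOf y) hy2
    simp only [FF_symm_inr]
    refine h.trans (le_of_eq ?_)
    rw [mul_comm, div_mul_cancel₀ _ hK.ne']

/-- the uniform homeomorphism `ℝ^X ≃ ℝ^(T ⊕ X)` respecting the continuity conditions. -/
theorem exists_psi : ∃ Ψ : (XX → ℝ) ≃ᵤ (List ℕ ⊕ XX → ℝ), ∀ f, CX f ↔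
    (CT fun t => Ψ f (.inl t)) ∧ (CX fun x => Ψ f (.inr x)) := by
  obtain ⟨Φ, hΦ⟩ := Jobtriv.triv
  obtain ⟨Δ, hΔ⟩ := Jobdiff.diff
  refine ⟨Δ.trans (FF.symm.trans (sumE Φ Δ).symm), fun f => ?_⟩
  set z : List ℕ ⊕ XX → ℝ := FF.symm (Δ f) with hz
  have e1 : (fun t => (Δ.trans (FF.symm.trans (sumE Φ Δ).symm)) f (.inl t)) =
      Φ.symm fun t => z (.inl t) := rfl
  have e2 : (fun x => (Δ.trans (FF.symm.trans (sumE Φ Δ).symm)) f (.inr x)) =
      Δ.symm fun x => z (.inr x) := rfl
  rw [e1, e2, hΦ, hΔ, hΔ, Φ.apply_symm_apply, Δ.apply_symm_apply]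
  constructor
  · intro h
    exact FF_symm_CJ _ h
  · rintro ⟨h1, h2⟩
    have := FF_CJ z h1 h2
    rwa [hz, FF.apply_symm_apply] at this

theorem final_abs (X T : Type) [TopologicalSpace X] [TopologicalSpace T]
    [MetrizableSpace T] (hX : IsCompletelyMetrizableSpace X)
    (hT : ¬ IsCompletelyMetrizableSpace T)
    (Ψ : (X → ℝ) ≃ᵤ (T ⊕ X → ℝ))
    (h : ∀ f, Continuous f ↔ (Continuous fun t => Ψ f (.inl t)) ∧
      (Continuous fun x => Ψ f (.inr x))) :
    ¬ (∀ (X Y : Type) [TopologicalSpace X] [MetrizableSpace X]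
      [TopologicalSpace Y] [MetrizableSpace Y],
      Nonempty (UniformEquiv {f : X → ℝ // Continuous f} {g : Y → ℝ // Continuous g}) →
        (IsCompletelyMetrizableSpace X ↔ IsCompletelyMetrizableSpace Y)) := by
  intro H
  have hXm : MetrizableSpace X := inferInstance
  have hYm : MetrizableSpace (T ⊕ X) := by
    let := metrizableSpaceMetric X
    let := metrizableSpaceMetric T
    let : MetricSpace (T ⊕ X) := Metric.metricSpaceSum
    infer_instance
  have hh : ∀ f, Continuous f ↔ Continuous (Ψ f) := by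
    intro f
    rw [h f, continuous_sum_dom]
    rfl
  have hc : ∀ f : X → ℝ, Continuous f → Continuous (Ψ f) := fun f => (hh f).1
  have hc' : ∀ g : T ⊕ X → ℝ, Continuous g → Continuous (Ψ.symm g) := by
    intro g hg
    rw [hh, Ψ.apply_symm_apply]
    exact hg
  have e : UniformEquiv {f : X → ℝ // Continuous f} {g : T ⊕ X → ℝ // Continuous g} :=
    { toFun := fun f => ⟨Ψ f.1, hc _ f.2⟩
      invFun := fun g => ⟨Ψ.symm g.1, hc' _ g.2⟩
      left_inv := fun f => Subtype.ext (Ψ.symm_apply_apply _)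
      right_inv := fun f => Subtype.ext (Ψ.apply_symm_apply _)
      uniformContinuous_toFun :=
        (Ψ.uniformContinuous.comp uniformContinuous_subtype_val).subtype_mk _
      uniformContinuous_invFun :=
        (Ψ.symm.uniformContinuous.comp uniformContinuous_subtype_val).subtype_mk _ }
  have hY := (H X (T ⊕ X) ⟨e⟩).1 hX
  exact hT ((Topology.IsClosedEmbedding.inl (X := T) (Y := X)).IsCompletelyMetrizableSpace)

theorem not_main :
    ¬ (∀ (X Y : Type) [TopologicalSpace X] [MetrizableSpace X]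
      [TopologicalSpace Y] [MetrizableSpace Y],
      Nonempty (UniformEquiv {f : X → ℝ // Continuous f} {g : Y → ℝ // Continuous g}) →
        (IsCompletelyMetrizableSpace X ↔ IsCompletelyMetrizableSpace Y)) := by
  obtain ⟨tT, hT1, hT2, hT3⟩ := JobspaceT.spaceT
  obtain ⟨tX, hX1, hX2⟩ := JobspaceX.spaceX
  obtain ⟨Ψ, hΨ⟩ := exists_psi
  refine @final_abs XX (List ℕ) tX tT hT1 hX1 hT2 Ψ fun f => ?_
  rw [hX2, hX2, hT3]
  exact hΨ f

end Pool.Agent.Helper830.MPel
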