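import Pool.Agent.Helper830.MPel.Rot

set_option autoImplicit false

namespace Pool.Agent.Helper830.MPel

/-- Gauge equivalence. `ι`, `ι'` are sets of coordinates, `τ k` is the type of the coordinate `k`.
There is a uniform homeomorphism `ℝ^ι ≃ ℝ^ι'` which, together with its inverse, increases for each
`i` the supremum of the coordinates whose type contains `i` at most by the factor `K i`. -/
def GEq {ι ι' : Type} (K : ℕ → ℝ) (τ : ι → Set ℕ) (τ' : ι' → Set ℕ) : Prop :=
  ∃ e : (ι → ℝ) ≃ᵤ (ι' → ℝ),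
    (∀ (i : ℕ) (c : ℝ) (x : ι → ℝ), 0 ≤ c → (∀ k, i ∈ τ k → |x k| ≤ c) →
      ∀ k, i ∈ τ' k → |e x k| ≤ K i * c) ∧
    (∀ (i : ℕ) (c : ℝ) (x : ι' → ℝ), 0 ≤ c → (∀ k, i ∈ τ' k → |x k| ≤ c) →
      ∀ k, i ∈ τ k → |e.symm x k| ≤ K i * c)

section basic
variable {ι ι' ι'' κ κ' : Type}

theorem GEq.symm {K : ℕ → ℝ} {τ : ι → Set ℕ} {τ' : ι' → Set ℕ} (h : GEq K τ τ') : GEq K τ' τ := by
  obtain ⟨e, h1, h2⟩ := h
  exact ⟨e.symm, h2, h1⟩

theorem GEq.mono {K K' : ℕ → ℝ} {τ : ι → Set ℕ} {τ' : ι' → Set ℕ} (h : GEq K τ τ')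
    (hK : ∀ i, K i ≤ K' i) : GEq K' τ τ' := by
  obtain ⟨e, h1, h2⟩ := h
  exact ⟨e, fun i c x hc hx k hk => (h1 i c x hc hx k hk).trans
      (mul_le_mul_of_nonneg_right (hK i) hc),
    fun i c x hc hx k hk => (h2 i c x hc hx k hk).trans
      (mul_le_mul_of_nonneg_right (hK i) hc)⟩

theorem GEq.trans {K K' : ℕ → ℝ} {τ : ι → Set ℕ} {τ' : ι' → Set ℕ} {τ'' : ι'' → Set ℕ}
    (h : GEq K τ τ') (h' : GEq K' τ' τ'') (hK : ∀ i, 1 ≤ K i) (hK' : ∀ i, 1 ≤ K' i) :
    GEq (fun i => K i * K' i) τ τ'' := by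
  obtain ⟨e, h1, h2⟩ := h
  obtain ⟨e', h1', h2'⟩ := h'
  refine ⟨e.trans e', ?_, ?_⟩
  · intro i c x hc hx k hk
    have hk0 : 0 ≤ K i := zero_le_one.trans (hK i)
    have := h1' i (K i * c) (e x) (mul_nonneg hk0 hc) (h1 i c x hc hx) k hk
    calc |(e.trans e') x k| ≤ K' i * (K i * c) := this
      _ = K i * K' i * c := by ring
  · intro i c x hc hx k hk
    have hk0 : 0 ≤ K' i := zero_le_one.trans (hK' i)
    have := h2 i (K' i * c) (e'.symm x) (mul_nonneg hk0 hc) (h2' i c x hc hx) k hk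
    calc |(e.trans e').symm x k| ≤ K i * (K' i * c) := this
      _ = K i * K' i * c := by ring

/-- relabelling -/
def relE (e : ι ≃ ι') : (ι → ℝ) ≃ᵤ (ι' → ℝ) where
  toFun x k := x (e.symm k)
  invFun x k := x (e k)
  left_inv x := by funext k; simp
  right_inv x := by funext k; simp
  uniformContinuous_toFun := uniformContinuous_pi.2 fun k => Pi.uniformContinuous_proj _ _
  uniformContinuous_invFun := uniformContinuous_pi.2 fun k => Pi.uniformContinuous_proj _ _

theorem GEq.rel {τ : ι → Set ℕ} {τ' : ι' → Set ℕ} (e : ι ≃ ι') (h : ∀ k, τ' (e k) = τ k) :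
    GEq (fun _ => 1) τ τ' := by
  refine ⟨relE e, ?_, ?_⟩
  · intro i c x _ hx k hk
    rw [one_mul]
    apply hx (e.symm k)
    rw [← h, Equiv.apply_symm_apply]
    exact hk
  · intro i c x _ hx k hk
    rw [one_mul]
    apply hx (e k)
    rw [h]
    exact hk

theorem GEq.refl' (τ : ι → Set ℕ) : GEq (fun _ => 1) τ τ := GEq.rel (Equiv.refl _) fun _ => rfl

/-- block sums -/
def sumE (e : (ι → ℝ) ≃ᵤ (ι' → ℝ)) (f : (κ → ℝ) ≃ᵤ (κ' → ℝ)) :
    (ι ⊕ κ → ℝ) ≃ᵤ (ι' ⊕ κ' → ℝ) where
  toFun x := Sum.elim (e fun k => x (.inl k)) (f fun k => x (.inr k))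
  invFun x := Sum.elim (e.symm fun k => x (.inl k)) (f.symm fun k => x (.inr k))
  left_inv x := by
    funext k
    rcases k with k | k
    · simp only [Sum.elim_inl]
      exact congrFun (e.symm_apply_apply _) k
    · simp only [Sum.elim_inr]
      exact congrFun (f.symm_apply_apply _) k
  right_inv x := by
    funext k
    rcases k with k | k
    · simp only [Sum.elim_inl]
      exact congrFun (e.apply_symm_apply _) k
    · simp only [Sum.elim_inr]
      exact congrFun (f.apply_symm_apply _) k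
  uniformContinuous_toFun := by
    apply uniformContinuous_pi.2
    rintro (k | k)
    · exact (Pi.uniformContinuous_proj _ k).comp (e.uniformContinuous.comp
        (uniformContinuous_pi.2 fun k => Pi.uniformContinuous_proj _ _))
    · exact (Pi.uniformContinuous_proj _ k).comp (f.uniformContinuous.comp
        (uniformContinuous_pi.2 fun k => Pi.uniformContinuous_proj _ _))
  uniformContinuous_invFun := by
    apply uniformContinuous_pi.2
    rintro (k | k)
    · exact (Pi.uniformContinuous_proj _ k).comp (e.symm.uniformContinuous.comp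
        (uniformContinuous_pi.2 fun k => Pi.uniformContinuous_proj _ _))
    · exact (Pi.uniformContinuous_proj _ k).comp (f.symm.uniformContinuous.comp
        (uniformContinuous_pi.2 fun k => Pi.uniformContinuous_proj _ _))

theorem GEq.sum {K : ℕ → ℝ} {τ : ι → Set ℕ} {τ' : ι' → Set ℕ} {σ : κ → Set ℕ} {σ' : κ' → Set ℕ}
    (h : GEq K τ τ') (h' : GEq K σ σ') : GEq K (Sum.elim τ σ) (Sum.elim τ' σ') := by
  obtain ⟨e, h1, h2⟩ := h
  obtain ⟨f, h1', h2'⟩ := h'
  refine ⟨sumE e f, ?_, ?_⟩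
  · rintro i c x hc hx (k | k) hk
    · exact h1 i c _ hc (fun k hk => hx (.inl k) hk) k hk
    · exact h1' i c _ hc (fun k hk => hx (.inr k) hk) k hk
  · rintro i c x hc hx (k | k) hk
    · exact h2 i c _ hc (fun k hk => hx (.inl k) hk) k hk
    · exact h2' i c _ hc (fun k hk => hx (.inr k) hk) k hk

end basic

/-! ### the swindle -/

abbrev NNN : Type := ℕ ⊕ (ℕ ⊕ ℕ)

def tE (P Q R : Set ℕ) : NNN → Set ℕ :=
  Sum.elim (fun _ => P) (Sum.elim (fun _ => Q) (fun _ => R))

def yy (z : NNN → ℝ) (j : ℕ) : ℝ := hY (z (.inl j)) (z (.inr (.inl j))) (z (.inr (.inr j)))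
def uu (z : NNN → ℝ) (j : ℕ) : ℝ := hU (z (.inl j)) (z (.inr (.inl j))) (z (.inr (.inr j)))
def vv (z : NNN → ℝ) (j : ℕ) : ℝ := hV (z (.inl j)) (z (.inr (.inl j)))

def kk (y u v : ℕ → ℝ) : NNN → ℝ :=
  Sum.elim (fun j => kP (y j) (u j) (v j))
    (Sum.elim (fun j => kQ (y j) (u j) (v j)) (fun j => kR (y j) (u j) (v j)))

theorem yy_kk (y u v : ℕ → ℝ) : yy (kk y u v) = y := by funext j; exact hY_k _ _ _
theorem uu_kk (y u v : ℕ → ℝ) : uu (kk y u v) = u := by funext j; exact hU_k _ _ _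
theorem vv_kk (y u v : ℕ → ℝ) : vv (kk y u v) = v := by funext j; exact hV_k _ _ _
theorem kk_yy (z : NNN → ℝ) : kk (yy z) (uu z) (vv z) = z := by
  funext k
  rcases k with j | j | j
  · exact kP_h _ _ _
  · exact kQ_h _ _ _
  · exact kR_h _ _ _

section uc2
variable {α : Type*} [UniformSpace α]

theorem uc_yy {z : α → NNN → ℝ} (hz : ∀ k, UniformContinuous fun a => z a k) (j : ℕ) :
    UniformContinuous fun a => yy (z a) j := uc_hY (hz _) (hz _) (hz _)
theorem uc_uu {z : α → NNN → ℝ} (hz : ∀ k, UniformContinuous fun a => z a k) (j : ℕ) :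
    UniformContinuous fun a => uu (z a) j := uc_hU (hz _) (hz _) (hz _)
theorem uc_vv {z : α → NNN → ℝ} (hz : ∀ k, UniformContinuous fun a => z a k) (j : ℕ) :
    UniformContinuous fun a => vv (z a) j := uc_hV (hz _) (hz _)

theorem uc_kk {y u v : α → ℕ → ℝ} (hy : ∀ k, UniformContinuous fun a => y a k)
    (hu : ∀ k, UniformContinuous fun a => u a k) (hv : ∀ k, UniformContinuous fun a => v a k)
    (k : NNN) : UniformContinuous fun a => kk (y a) (u a) (v a) k := by
  rcases k with j | j | j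
  · exact uc_kP (hy _) (hu _) (hv _)
  · exact uc_kQ (hy _) (hu _) (hv _)
  · exact uc_kR (hy _) (hu _) (hv _)

end uc2

/-- the forward map of the swindle. -/
def swF (x : ℕ ⊕ NNN → ℝ) : NNN → ℝ :=
  kk (fun m => Sum.elim (fun j => x (.inl j)) (yy fun k => x (.inr k))
      (Equiv.natSumNatEquivNat.symm m))
    (uu fun k => x (.inr k)) (vv fun k => x (.inr k))

def swG (z : NNN → ℝ) : ℕ ⊕ NNN → ℝ :=
  Sum.elim (fun j => yy z (Equiv.natSumNatEquivNat (.inl j)))
    (kk (fun j => yy z (Equiv.natSumNatEquivNat (.inr j))) (uu z) (vv z))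

theorem swG_swF (x : ℕ ⊕ NNN → ℝ) : swG (swF x) = x := by
  unfold swG swF
  rw [yy_kk, uu_kk, vv_kk]
  simp only [Equiv.symm_apply_apply, Sum.elim_inl, Sum.elim_inr]
  have e : (fun j => yy (fun k => x (.inr k)) j) = yy (fun k => x (.inr k)) := rfl
  rw [e, kk_yy]
  funext k
  rcases k with k | k <;> rfl

theorem swF_swG (z : NNN → ℝ) : swF (swG z) = z := by
  unfold swF
  have e : (fun k => swG z (.inr k)) =
      kk (fun j => yy z (Equiv.natSumNatEquivNat (.inr j))) (uu z) (vv z) := rfl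
  rw [e, yy_kk, uu_kk, vv_kk]
  have e2 : (fun m => Sum.elim (fun j => swG z (.inl j))
      (fun j => yy z (Equiv.natSumNatEquivNat (.inr j))) (Equiv.natSumNatEquivNat.symm m)) =
      yy z := by
    funext m
    obtain ⟨s, rfl⟩ := Equiv.natSumNatEquivNat.surjective m
    rw [Equiv.symm_apply_apply]
    rcases s with s | s <;> rfl
  rw [e2, kk_yy]

def swE : (ℕ ⊕ NNN → ℝ) ≃ᵤ (NNN → ℝ) where
  toFun := swF
  invFun := swG
  left_inv := swG_swF
  right_inv := swF_swG
  uniformContinuous_toFun := by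
    apply uniformContinuous_pi.2
    have hp : ∀ k : NNN, UniformContinuous fun a : ℕ ⊕ NNN → ℝ => a (.inr k) :=
      fun k => Pi.uniformContinuous_proj _ _
    apply uc_kk
    · intro m
      obtain ⟨s, rfl⟩ := Equiv.natSumNatEquivNat.surjective m
      simp only [Equiv.symm_apply_apply]
      rcases s with s | s
      · exact Pi.uniformContinuous_proj _ _
      · exact uc_yy hp s
    · exact uc_uu hp
    · exact uc_vv hp
  uniformContinuous_invFun := by
    apply uniformContinuous_pi.2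
    have hp : ∀ k : NNN, UniformContinuous fun a : NNN → ℝ => a k :=
      fun k => Pi.uniformContinuous_proj _ _
    rintro (k | k)
    · exact uc_yy hp _
    · exact uc_kk (fun m => uc_yy hp _) (uc_uu hp) (uc_vv hp) k

/-- the swindle: `ℝ_S^ℕ × (ℝ_P × ℝ_Q × ℝ_R)^ℕ ≃ (ℝ_P × ℝ_Q × ℝ_R)^ℕ`. Indices in `P ∩ R \ Q` are
treated exactly. -/
theorem swindle (P Q R S : Set ℕ) (K : ℕ → ℝ)
    (h : ∀ i, (i ∉ S ∧ i ∉ P ∧ i ∉ Q ∧ i ∉ R) ∨ (1 ≤ K i ∧ i ∈ S ∧ i ∈ P ∧ i ∉ Q ∧ i ∈ R) ∨
      (25 ≤ K i ∧ i ∈ S ∧ i ∈ P ∧ i ∈ Q ∧ i ∉ R) ∨ (25 ≤ K i ∧ i ∈ S ∧ i ∉ P ∧ i ∈ Q ∧ i ∈ R)) :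
    GEq K (Sum.elim (fun _ : ℕ => S) (tE P Q R)) (tE P Q R) := by
  refine ⟨swE, ?_, ?_⟩
  · intro i c x hc hx k hk
    change |swF x k| ≤ _
    have hw : i ∈ S → ∀ j, |x (.inl j)| ≤ c := fun hi j => hx (.inl j) hi
    have hp : i ∈ P → ∀ j, |x (.inr (.inl j))| ≤ c := fun hi j => hx _ hi
    have hq : i ∈ Q → ∀ j, |x (.inr (.inr (.inl j)))| ≤ c := fun hi j => hx _ hi
    have hr : i ∈ R → ∀ j, |x (.inr (.inr (.inr j)))| ≤ c := fun hi j => hx _ hi
    rcases h i with ⟨h0, h1, h2, h3⟩ | ⟨h0, h1, h2, h3, h4⟩ | ⟨h0, h1, h2, h3, h4⟩ |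
      ⟨h0, h1, h2, h3, h4⟩
    · rcases k with k | k | k
      · exact absurd hk h1
      · exact absurd hk h2
      · exact absurd hk h3
    · have hh := fun j => hA (q := x (.inr (.inr (.inl j)))) (hp h2 j) (hr h4 j)
      have hY' : ∀ m, |Sum.elim (fun j => x (.inl j)) (yy fun k => x (.inr k))
          (Equiv.natSumNatEquivNat.symm m)| ≤ c := by
        intro m
        rcases Equiv.natSumNatEquivNat.symm m with s | s
        · exact hw h1 s
        · exact (hh s).1
      have hc' : c ≤ K i * c := by nlinarith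
      rcases k with k | k | k
      · exact (kA (hY' k) (hh k).2).1.trans hc'
      · exact absurd hk h3
      · exact (kA (hY' k) (hh k).2).2.trans hc'
    · have hh := fun j => hB (r := x (.inr (.inr (.inr j)))) (hp h2 j) (hq h3 j)
      have hY' : ∀ m, |Sum.elim (fun j => x (.inl j)) (yy fun k => x (.inr k))
          (Equiv.natSumNatEquivNat.symm m)| ≤ 5 * c := by
        intro m
        rcases Equiv.natSumNatEquivNat.symm m with s | s
        · exact (hw h1 s).trans (by linarith)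
        · exact (hh s).1
      have hc' : 5 * (5 * c) ≤ K i * c := by nlinarith
      rcases k with k | k | k
      · exact (kB (hY' k) (hh k).2).1.trans hc'
      · exact (kB (hY' k) (hh k).2).2.trans hc'
      · exact absurd hk h4
    · have hh := fun j => hC (p := x (.inr (.inl j))) (hq h3 j) (hr h4 j)
      have hY' : ∀ m, |Sum.elim (fun j => x (.inl j)) (yy fun k => x (.inr k))
          (Equiv.natSumNatEquivNat.symm m)| ≤ 5 * c := by
        intro m
        rcases Equiv.natSumNatEquivNat.symm m with s | s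
        · exact (hw h1 s).trans (by linarith)
        · exact (hh s).1
      have hc' : 5 * (5 * c) ≤ K i * c := by nlinarith
      rcases k with k | k | k
      · exact absurd hk h2
      · exact (kC (hY' k) (hh k).2).1.trans hc'
      · exact (kC (hY' k) (hh k).2).2.trans hc'
  · intro i c z hc hx k hk
    change |swG z k| ≤ _
    have hp : i ∈ P → ∀ j, |z (.inl j)| ≤ c := fun hi j => hx _ hi
    have hq : i ∈ Q → ∀ j, |z (.inr (.inl j))| ≤ c := fun hi j => hx _ hi
    have hr : i ∈ R → ∀ j, |z (.inr (.inr j))| ≤ c := fun hi j => hx _ hi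
    rcases h i with ⟨h0, h1, h2, h3⟩ | ⟨h0, h1, h2, h3, h4⟩ | ⟨h0, h1, h2, h3, h4⟩ |
      ⟨h0, h1, h2, h3, h4⟩
    · rcases k with k | k | k | k
      · exact absurd hk h0
      · exact absurd hk h1
      · exact absurd hk h2
      · exact absurd hk h3
    · have hh := fun j => hA (q := z (.inr (.inl j))) (hp h2 j) (hr h4 j)
      have hc' : c ≤ K i * c := by nlinarith
      rcases k with k | k | k | k
      · exact (hh _).1.trans hc'
      · exact (kA (hh _).1 (hh k).2).1.trans hc'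
      · exact absurd hk h3
      · exact (kA (hh _).1 (hh k).2).2.trans hc'
    · have hh := fun j => hB (r := z (.inr (.inr j))) (hp h2 j) (hq h3 j)
      have hc' : 5 * (5 * c) ≤ K i * c := by nlinarith
      rcases k with k | k | k | k
      · exact (hh _).1.trans (by linarith)
      · exact (kB (hh _).1 (hh k).2).1.trans hc'
      · exact (kB (hh _).1 (hh k).2).2.trans hc'
      · exact absurd hk h4
    · have hh := fun j => hC (p := z (.inl j)) (hq h3 j) (hr h4 j)
      have hc' : 5 * (5 * c) ≤ K i * c := by nlinarith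
      rcases k with k | k | k | k
      · exact (hh _).1.trans (by linarith)
      · exact absurd hk h2
      · exact (kC (hh _).1 (hh k).2).1.trans hc'
      · exact (kC (hh _).1 (hh k).2).2.trans hc'

end Pool.Agent.Helper830.MPel
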