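import Pool.Agent.Helper830.MPel.GE

set_option autoImplicit false

namespace Pool.Agent.Helper830.MPel

/-- `τ` absorbs countably many coordinates of type `S`. -/
def Absb {ι : Type} (K : ℕ → ℝ) (S : Set ℕ) (τ : ι → Set ℕ) : Prop :=
  GEq K (Sum.elim (fun _ : ℕ => S) τ) τ

theorem absb_step {ι : Type} {τ : ι → Set ℕ} {P Q R S : Set ℕ} {KQ KR Ks : ℕ → ℝ}
    (hP : Absb (fun _ => 1) P τ) (hQ : Absb KQ Q τ) (hR : Absb KR R τ)
    (hs : GEq Ks (Sum.elim (fun _ : ℕ => S) (tE P Q R)) (tE P Q R))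
    (h1 : ∀ i, 1 ≤ KQ i) (h2 : ∀ i, 1 ≤ KR i) (h3 : ∀ i, 1 ≤ Ks i) :
    Absb (fun i => (KQ i * KR i) ^ 2 * Ks i) S τ := by
  have one : ∀ i : ℕ, (1:ℝ) ≤ 1 := fun _ => le_rfl
  -- absorbing the three blocks
  have hΘ : GEq (fun i => KQ i * KR i) (Sum.elim (tE P Q R) τ) τ := by
    have r1 : GEq (fun _ => 1) (Sum.elim (tE P Q R) τ)
        (Sum.elim (fun _ : ℕ => P) (Sum.elim (fun _ : ℕ => Q) (Sum.elim (fun _ : ℕ => R) τ))) :=
      GEq.rel ((Equiv.sumAssoc _ _ _).trans
        (Equiv.sumCongr (Equiv.refl _) (Equiv.sumAssoc _ _ _))) (by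
          rintro ((k | k | k) | k) <;> rfl)
    have r2 : GEq KR
        (Sum.elim (fun _ : ℕ => P) (Sum.elim (fun _ : ℕ => Q) (Sum.elim (fun _ : ℕ => R) τ)))
        (Sum.elim (fun _ : ℕ => P) (Sum.elim (fun _ : ℕ => Q) τ)) :=
      GEq.sum ((GEq.refl' _).mono h2) (GEq.sum ((GEq.refl' _).mono h2) hR)
    have r3 : GEq KQ (Sum.elim (fun _ : ℕ => P) (Sum.elim (fun _ : ℕ => Q) τ))
        (Sum.elim (fun _ : ℕ => P) τ) :=
      GEq.sum ((GEq.refl' _).mono h1) hQ
    have := ((r1.trans r2 one h2).trans r3 (fun i => by simpa using h2 i) h1).trans hP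
      (fun i => by nlinarith [h1 i, h2 i]) one
    exact this.mono fun i => le_of_eq (by ring)
  have hΘ1 : ∀ i, 1 ≤ KQ i * KR i := fun i => by nlinarith [h1 i, h2 i]
  have s1 : GEq (fun i => KQ i * KR i) (Sum.elim (fun _ : ℕ => S) τ)
      (Sum.elim (fun _ : ℕ => S) (Sum.elim (tE P Q R) τ)) :=
    GEq.sum ((GEq.refl' _).mono hΘ1) hΘ.symm
  have s2 : GEq (fun _ => 1) (Sum.elim (fun _ : ℕ => S) (Sum.elim (tE P Q R) τ))
      (Sum.elim (Sum.elim (fun _ : ℕ => S) (tE P Q R)) τ) :=
    GEq.rel (Equiv.sumAssoc _ _ _).symm (by rintro (k | k | k) <;> rfl)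
  have s3 : GEq Ks (Sum.elim (Sum.elim (fun _ : ℕ => S) (tE P Q R)) τ)
      (Sum.elim (tE P Q R) τ) := GEq.sum hs ((GEq.refl' _).mono h3)
  have := (((s1.trans s2 hΘ1 one).trans s3 (fun i => by simpa using hΘ1 i) h3).trans hΘ
    (fun i => by nlinarith [hΘ1 i, h3 i]) hΘ1)
  exact this.mono fun i => le_of_eq (by ring)

def LS (l : List ℕ) : Set ℕ := {i | i ∈ l}

/-- the constants -/
noncomputable def Kl : List ℕ → ℕ → ℝ
  | a :: b :: c :: l => fun i =>
      (Kl (b :: c :: l) i * Kl (a :: c :: l) i) ^ 2 * (if i ∈ b :: c :: l then 25 else 1)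
  | [] => fun _ => 1
  | [_] => fun _ => 1
  | [_, _] => fun _ => 1
termination_by l => l.length

theorem Kl_step (a b c : ℕ) (l : List ℕ) (i : ℕ) : Kl (a :: b :: c :: l) i =
    (Kl (b :: c :: l) i * Kl (a :: c :: l) i) ^ 2 * (if i ∈ b :: c :: l then 25 else 1) := by
  rw [Kl]

theorem one_le_Kl : ∀ (n : ℕ) (l : List ℕ), l.length ≤ n → ∀ i, 1 ≤ Kl l i := by
  intro n
  induction n with
  | zero =>
    intro l hl i
    match l, hl with
    | [], _ => rw [Kl]
  | succ n ih =>
    intro l hl i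
    match l, hl with
    | [], _ => rw [Kl]
    | [_], _ => rw [Kl]
    | [_, _], _ => rw [Kl]
    | a :: b :: c :: l, hl =>
      rw [Kl_step]
      have h1 := ih (b :: c :: l) (by simpa using hl) i
      have h2 := ih (a :: c :: l) (by simpa using hl) i
      have h3 : (1:ℝ) ≤ (if i ∈ b :: c :: l then 25 else 1) := by split_ifs <;> norm_num
      have h4 : 1 ≤ Kl (b :: c :: l) i * Kl (a :: c :: l) i := by nlinarith
      have h5 : 1 ≤ (Kl (b :: c :: l) i * Kl (a :: c :: l) i) ^ 2 := one_le_pow₀ h4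
      nlinarith

theorem Kl_not_mem : ∀ (n : ℕ) (l : List ℕ), l.length ≤ n → ∀ i, i ∉ l → Kl l i = 1 := by
  intro n
  induction n with
  | zero =>
    intro l hl i _
    match l, hl with
    | [], _ => rw [Kl]
  | succ n ih =>
    intro l hl i hi
    match l, hl, hi with
    | [], _, _ => rw [Kl]
    | [_], _, _ => rw [Kl]
    | [_, _], _, _ => rw [Kl]
    | a :: b :: c :: l, hl, hi =>
      rw [Kl_step]
      have hi1 : i ∉ b :: c :: l := fun h => hi (List.mem_cons_of_mem _ h)
      have hi2 : i ∉ a :: c :: l := by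
        simp only [List.mem_cons, not_or] at hi ⊢
        exact ⟨hi.1, hi.2.2.1, hi.2.2.2⟩
      rw [ih _ (by simpa using hl) i hi1, ih _ (by simpa using hl) i hi2, if_neg hi1]
      norm_num

/-- the bound -/
noncomputable def kap : ℕ → ℝ
  | 0 => 1
  | n + 1 => 25 * kap n ^ 4

theorem one_le_kap : ∀ n, 1 ≤ kap n
  | 0 => le_rfl
  | n + 1 => by
    rw [kap]
    have := one_le_pow₀ (n := 4) (one_le_kap n)
    linarith

theorem Kl_mem : ∀ (n : ℕ) (l : List ℕ), l.length ≤ n → l.Nodup → ∀ i, i ∈ l →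
    Kl l i ≤ kap (l.idxOf i) := by
  intro n
  induction n with
  | zero =>
    intro l hl _ i hi
    match l, hl, hi with
    | [], _, hi => simp at hi
  | succ n ih =>
    intro l hl hnd i hi
    match l, hl, hnd, hi with
    | [], _, _, hi => simp at hi
    | [_], _, _, _ => rw [Kl]; exact one_le_kap _
    | [_, _], _, _, _ => rw [Kl]; exact one_le_kap _
    | a :: b :: c :: l, hl, hnd, hi =>
      rw [Kl_step]
      have hl1 : (b :: c :: l).length ≤ n := by simpa using hl
      have hl2 : (a :: c :: l).length ≤ n := by simpa using hl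
      have hnd1 : (b :: c :: l).Nodup := hnd.of_cons
      have hnd2 : (a :: c :: l).Nodup := by
        simp only [List.nodup_cons, List.mem_cons, not_or] at hnd ⊢
        exact ⟨⟨hnd.1.2.1, hnd.1.2.2⟩, hnd.2.2⟩
      have ha1 : a ∉ b :: c :: l := (List.nodup_cons.1 hnd).1
      have hb1 : b ∉ c :: l := (List.nodup_cons.1 hnd1).1
      by_cases hia : i = a
      · subst hia
        rw [Kl_not_mem _ _ le_rfl i ha1, if_neg ha1]
        have h := ih _ hl2 hnd2 i (by simp)
        have h' := one_le_Kl _ _ hl2 i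
        simp only [List.idxOf_cons_self] at h ⊢
        rw [kap] at h ⊢
        have : Kl (i :: c :: l) i = 1 := le_antisymm h h'
        rw [this]
        norm_num
      · by_cases hib : i = b
        · subst hib
          have hi2 : i ∉ a :: c :: l := by
            simp only [List.mem_cons, not_or] at hb1 ⊢
            exact ⟨hia, hb1⟩
          rw [Kl_not_mem _ _ le_rfl i hi2]
          have h := ih _ hl1 hnd1 i (by simp)
          have h' := one_le_Kl _ _ hl1 i
          simp only [List.idxOf_cons_self] at h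
          rw [kap] at h
          have e : Kl (i :: c :: l) i = 1 := le_antisymm h h'
          rw [e, if_pos (by simp), List.idxOf_cons_ne _ (Ne.symm hia), List.idxOf_cons_self]
          norm_num [kap]
        · have hicl : i ∈ c :: l := by
            simp only [List.mem_cons] at hi ⊢
            tauto
          have h1 := ih _ hl1 hnd1 i (List.mem_cons_of_mem _ hicl)
          have h2 := ih _ hl2 hnd2 i (List.mem_cons_of_mem _ hicl)
          have h1' := one_le_Kl _ _ hl1 i
          have h2' := one_le_Kl _ _ hl2 i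
          rw [List.idxOf_cons_ne _ (Ne.symm hib)] at h1
          rw [List.idxOf_cons_ne _ (Ne.symm hia)] at h2
          rw [if_pos (List.mem_cons_of_mem _ hicl), List.idxOf_cons_ne _ (Ne.symm hia),
            List.idxOf_cons_ne _ (Ne.symm hib)]
          set m := (c :: l).idxOf i
          rw [kap]
          have hk := one_le_kap (m + 1)
          have h3 : Kl (b :: c :: l) i * Kl (a :: c :: l) i ≤ kap (m + 1) ^ 2 := by
            rw [sq]
            exact mul_le_mul h1 h2 (by linarith) (by linarith)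
          have h4 : (Kl (b :: c :: l) i * Kl (a :: c :: l) i) ^ 2 ≤ (kap (m + 1) ^ 2) ^ 2 :=
            pow_le_pow_left₀ (by positivity) h3 2
          calc _ ≤ (kap (m + 1) ^ 2) ^ 2 * 25 := by linarith
            _ = 25 * kap (m + 1) ^ 4 := by ring

end Pool.Agent.Helper830.MPel
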