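import Pool.Agent.Helper830.MPel.GE2

set_option autoImplicit false

namespace Pool.Agent.Helper830.MPel

theorem absb_list {ι : Type} {τ : ι → Set ℕ} {n : ℕ}
    (hτ : ∀ l : List ℕ, l.length ≤ 2 → (∀ i ∈ l, i < n) → Absb (fun _ => 1) (LS l) τ) :
    ∀ (m : ℕ) (l : List ℕ), l.length ≤ m → l.Nodup → (∀ i ∈ l, i < n) →
      Absb (Kl l) (LS l) τ := by
  intro m
  induction m with
  | zero =>
    intro l hl _ hn
    match l, hl, hn with
    | [], _, hn =>
      have e : Kl [] = fun _ => 1 := by funext i; rw [Kl]
      rw [e]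
      exact hτ [] (by simp) hn
  | succ m ih =>
    intro l hl hnd hn
    match l, hl, hnd, hn with
    | [], _, _, hn =>
      have e : Kl [] = fun _ => 1 := by funext i; rw [Kl]
      rw [e]
      exact hτ [] (by simp) hn
    | [a], _, _, hn =>
      have e : Kl [a] = fun _ => 1 := by funext i; rw [Kl]
      rw [e]
      exact hτ [a] (by simp) hn
    | [a, b], _, _, hn =>
      have e : Kl [a, b] = fun _ => 1 := by funext i; rw [Kl]
      rw [e]
      exact hτ [a, b] (by simp) hn
    | a :: b :: c :: l, hl, hnd, hn =>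
      have hl1 : (b :: c :: l).length ≤ m := by simpa using hl
      have hl2 : (a :: c :: l).length ≤ m := by simpa using hl
      have hnd1 : (b :: c :: l).Nodup := hnd.of_cons
      have hnd2 : (a :: c :: l).Nodup := by
        simp only [List.nodup_cons, List.mem_cons, not_or] at hnd ⊢
        exact ⟨⟨hnd.1.2.1, hnd.1.2.2⟩, hnd.2.2⟩
      have ha1 : a ∉ b :: c :: l := (List.nodup_cons.1 hnd).1
      have hb1 : b ∉ c :: l := (List.nodup_cons.1 hnd1).1
      have hP : Absb (fun _ => 1) (LS [a, b]) τ := hτ [a, b] (by simp) (by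
        intro i hi
        apply hn
        simp only [List.mem_cons, List.not_mem_nil, or_false] at hi ⊢
        tauto)
      have hQ := ih (b :: c :: l) hl1 hnd1 (fun i hi => hn i (List.mem_cons_of_mem _ hi))
      have hR := ih (a :: c :: l) hl2 hnd2 (fun i hi => hn i (by
        simp only [List.mem_cons] at hi ⊢
        tauto))
      have hs : GEq (fun i => if i ∈ b :: c :: l then 25 else 1)
          (Sum.elim (fun _ : ℕ => LS (a :: b :: c :: l))
            (tE (LS [a, b]) (LS (b :: c :: l)) (LS (a :: c :: l))))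
          (tE (LS [a, b]) (LS (b :: c :: l)) (LS (a :: c :: l))) := by
        apply swindle
        intro i
        unfold LS
        simp only [Set.mem_setOf_eq]
        by_cases hia : i = a
        · subst hia
          refine Or.inr (Or.inl ⟨?_, by simp, by simp, ha1, by simp⟩)
          rw [if_neg ha1]
        · by_cases hib : i = b
          · subst hib
            refine Or.inr (Or.inr (Or.inl ⟨?_, by simp, by simp, by simp, ?_⟩))
            · rw [if_pos (by simp)]
            · simp only [List.mem_cons, not_or] at hb1 ⊢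
              exact ⟨hia, hb1⟩
          · by_cases hic : i ∈ c :: l
            · refine Or.inr (Or.inr (Or.inr ⟨?_, ?_, ?_, ?_, ?_⟩))
              · rw [if_pos (List.mem_cons_of_mem _ hic)]
              · exact List.mem_cons_of_mem _ (List.mem_cons_of_mem _ hic)
              · simp [hia, hib]
              · exact List.mem_cons_of_mem _ hic
              · exact List.mem_cons_of_mem _ hic
            · refine Or.inl ⟨?_, ?_, ?_, ?_⟩ <;>
                simp only [List.mem_cons, List.not_mem_nil, or_false, not_or] at hic ⊢ <;> tauto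
      have := absb_step hP hQ hR hs (one_le_Kl _ _ le_rfl) (one_le_Kl _ _ le_rfl)
        (fun i => by
          show (1:ℝ) ≤ if i ∈ b :: c :: l then 25 else 1
          split_ifs <;> norm_num)
      have e : Kl (a :: b :: c :: l) = fun i => (Kl (b :: c :: l) i * Kl (a :: c :: l) i) ^ 2 *
          (if i ∈ b :: c :: l then 25 else 1) := by
        funext i
        exact Kl_step _ _ _ _ _
      rw [e]
      exact this

theorem absb_one {ι : Type} {τ : ι → Set ℕ} {K : ℕ → ℝ} {S : Set ℕ} (h : Absb K S τ)
    (hK : ∀ i, 1 ≤ K i) : GEq (fun i => K i ^ 2) (Sum.elim (fun _ : Unit => S) τ) τ := by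
  have one : ∀ i : ℕ, (1:ℝ) ≤ 1 := fun _ => le_rfl
  have s1 : GEq K (Sum.elim (fun _ : Unit => S) τ)
      (Sum.elim (fun _ : Unit => S) (Sum.elim (fun _ : ℕ => S) τ)) :=
    GEq.sum ((GEq.refl' _).mono hK) (GEq.symm h)
  have s2 : GEq (fun _ => 1) (Sum.elim (fun _ : Unit => S) (Sum.elim (fun _ : ℕ => S) τ))
      (Sum.elim (fun _ : ℕ => S) τ) := by
    obtain ⟨e0⟩ : Nonempty (Unit ⊕ ℕ ≃ ℕ) := nonempty_equiv_of_countable
    refine GEq.rel ((Equiv.sumAssoc _ _ _).symm.trans (Equiv.sumCongr e0 (Equiv.refl _))) ?_
    rintro (k | k | k) <;> rfl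
  have := ((s1.trans s2 hK one).trans h (fun i => by simpa using hK i) hK)
  exact this.mono fun i => le_of_eq (by ring)

/-- the junk coordinates at a node of length `n`. -/
abbrev JJ (n : ℕ) : Type := {P : Finset ℕ // (∀ i ∈ P, i < n) ∧ P.card ≤ 2} × ℕ

def tJ (n : ℕ) : JJ n → Set ℕ := fun k => {i | i ∈ k.1.1}

def absMap {A : Type} [DecidableEq A] (a0 : A) : ℕ ⊕ (A × ℕ) → A × ℕ :=
  Sum.elim (fun j => (a0, Equiv.natSumNatEquivNat (.inl j)))
    (fun p => if p.1 = a0 then (a0, Equiv.natSumNatEquivNat (.inr p.2)) else p)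

theorem absMap_bij {A : Type} [DecidableEq A] (a0 : A) : Function.Bijective (absMap a0) := by
  constructor
  · intro x y h
    rcases x with j | ⟨a, j⟩ <;> rcases y with j' | ⟨a', j'⟩
    · simp only [absMap, Sum.elim_inl, Prod.mk.injEq, true_and, EmbeddingLike.apply_eq_iff_eq,
        Sum.inl.injEq] at h
      rw [h]
    · simp only [absMap, Sum.elim_inl, Sum.elim_inr] at h
      split_ifs at h with h1
      · simp only [Prod.mk.injEq, true_and, EmbeddingLike.apply_eq_iff_eq, reduceCtorEq] at h
      · exact absurd (congrArg Prod.fst h).symm h1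
    · simp only [absMap, Sum.elim_inl, Sum.elim_inr] at h
      split_ifs at h with h1
      · simp only [Prod.mk.injEq, true_and, EmbeddingLike.apply_eq_iff_eq, reduceCtorEq] at h
      · exact absurd (congrArg Prod.fst h) h1
    · simp only [absMap, Sum.elim_inr] at h
      split_ifs at h with h1 h2 h2
      · simp only [Prod.mk.injEq, true_and, EmbeddingLike.apply_eq_iff_eq, Sum.inr.injEq] at h
        rw [h1, h2, h]
      · exact absurd (congrArg Prod.fst h).symm h2
      · exact absurd (congrArg Prod.fst h) h1
      · rw [h]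
  · rintro ⟨a, j⟩
    by_cases ha : a = a0
    · subst ha
      obtain ⟨s, rfl⟩ := Equiv.natSumNatEquivNat.surjective j
      rcases s with s | s
      · exact ⟨.inl s, rfl⟩
      · exact ⟨.inr (a, s), by simp [absMap]⟩
    · exact ⟨.inr (a, j), by simp [absMap, ha]⟩

theorem absb_leaf (n : ℕ) (l : List ℕ) (hl : l.length ≤ 2) (hn : ∀ i ∈ l, i < n) :
    Absb (fun _ => 1) (LS l) (tJ n) := by
  classical
  let a0 : {P : Finset ℕ // (∀ i ∈ P, i < n) ∧ P.card ≤ 2} :=
    ⟨l.toFinset, fun i hi => hn i (List.mem_toFinset.1 hi), (List.toFinset_card_le l).trans hl⟩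
  refine GEq.rel (Equiv.ofBijective (absMap a0) (absMap_bij a0)) ?_
  rintro (j | ⟨a, j⟩)
  · ext i
    simp only [Equiv.ofBijective_apply, absMap, Sum.elim_inl, tJ, Set.mem_setOf_eq, LS, a0,
      List.mem_toFinset]
  · simp only [Equiv.ofBijective_apply, absMap, Sum.elim_inr]
    split_ifs with h
    · rw [h]
      rfl
    · rfl

/-- **node lemma**: one coordinate of the full type `{0, …, n-1}` is absorbed by the junk
coordinates of types with at most two elements, with constants independent of `n`. -/
theorem node (n : ℕ) :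
    GEq (fun i => kap i ^ 2) (Sum.elim (fun _ : Unit => {i | i < n}) (tJ n)) (tJ n) := by
  have h := absb_list (n := n) (τ := tJ n) (absb_leaf n) n (List.range n) (by simp)
    List.nodup_range (by simp)
  have h1 := absb_one h (one_le_Kl _ _ le_rfl)
  have e : LS (List.range n) = {i | i < n} := by
    ext i
    simp [LS]
  rw [e] at h1
  refine h1.mono fun i => ?_
  have h0 := one_le_Kl _ (List.range n) le_rfl i
  have hk := one_le_kap i
  apply pow_le_pow_left₀ (by linarith)
  by_cases hi : i < n
  · have := Kl_mem _ (List.range n) le_rfl List.nodup_range i (by simpa using hi)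
    have e2 : (List.range n).idxOf i = i := by
      have := List.Nodup.idxOf_getElem (xs := List.range n) List.nodup_range i (by simpa using hi)
      simpa using this
    rwa [e2] at this
  · rw [Kl_not_mem _ (List.range n) le_rfl i (by simpa using hi)]
    exact hk

end Pool.Agent.Helper830.MPel
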