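import Mathlib

set_option autoImplicit false

namespace Pool.Agent.Helper830.MPel

def rotY (p r l : ℝ) : ℝ :=
  p - min (max (l - max (p - r) 0) 0) (max (p + r) 0)
    + min (max (l - max (r - p) 0) 0) (max (-(p + r)) 0)

def rotU (p r l : ℝ) : ℝ :=
  r + min (max (l - max (-(p + r)) 0) 0) (max (p - r) 0)
    - min (max (l - max (p + r) 0) 0) (max (r - p) 0)

/-- normal forms in the four sectors -/
theorem rot_right {p r l : ℝ} (hl : 0 ≤ l) (h1 : 0 ≤ p + r) (h2 : 0 ≤ p - r) :
    rotY p r l = p - min (max (l - (p - r)) 0) (p + r) ∧ rotU p r l = r + min l (p - r) := by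
  unfold rotY rotU
  have e1 : max (p - r) 0 = p - r := max_eq_left h2
  have e2 : max (p + r) 0 = p + r := max_eq_left h1
  have e3 : max (r - p) 0 = 0 := max_eq_right (by linarith)
  have e4 : max (-(p + r)) 0 = 0 := max_eq_right (by linarith)
  rw [e1, e2, e3, e4]
  constructor
  · rw [min_eq_right (a := max (l - 0) 0) (b := 0) (le_max_right _ _)]; ring
  · rw [min_eq_right (a := max (l - (p + r)) 0) (b := 0) (le_max_right _ _), sub_zero,
      sub_zero, max_eq_left hl]

theorem rot_top {p r l : ℝ} (hl : 0 ≤ l) (h1 : 0 ≤ p + r) (h2 : 0 ≤ r - p) :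
    rotY p r l = p - min l (p + r) ∧ rotU p r l = r - min (max (l - (p + r)) 0) (r - p) := by
  unfold rotY rotU
  have e1 : max (p - r) 0 = 0 := max_eq_right (by linarith)
  have e2 : max (p + r) 0 = p + r := max_eq_left h1
  have e3 : max (r - p) 0 = r - p := max_eq_left h2
  have e4 : max (-(p + r)) 0 = 0 := max_eq_right (by linarith)
  rw [e1, e2, e3, e4]
  constructor
  · rw [min_eq_right (a := max (l - (r - p)) 0) (b := 0) (le_max_right _ _), sub_zero,
      max_eq_left hl]; ring
  · rw [min_eq_right (a := max (l - 0) 0) (b := 0) (le_max_right _ _)]; ring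

theorem rot_neg (p r l : ℝ) : rotY (-p) (-r) l = - rotY p r l ∧ rotU (-p) (-r) l = - rotU p r l := by
  unfold rotY rotU
  have a1 : -p - -r = r - p := by ring
  have a2 : -p + -r = -(p + r) := by ring
  have a3 : -r - -p = p - r := by ring
  rw [a1, a2, a3, neg_neg]
  constructor <;> ring

/-- explicit description in the right sector. -/
theorem rot_right_cases {p r l : ℝ} (hl : 0 ≤ l) (h1 : 0 ≤ p + r) (h2 : 0 ≤ p - r) :
    (l ≤ p - r ∧ rotY p r l = p ∧ rotU p r l = r + l) ∨
    (p - r ≤ l ∧ l ≤ 2 * p ∧ rotY p r l = 2 * p - r - l ∧ rotU p r l = p) ∨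
    (2 * p ≤ l ∧ rotY p r l = - r ∧ rotU p r l = p) := by
  obtain ⟨e1, e2⟩ := rot_right hl h1 h2
  rw [e1, e2]
  rcases le_total l (p - r) with h | h
  · left
    rw [max_eq_right (by linarith : l - (p - r) ≤ 0), min_eq_left h1, min_eq_left h]
    exact ⟨h, by ring, rfl⟩
  · right
    rw [max_eq_left (by linarith : 0 ≤ l - (p - r)), min_eq_right h]
    rcases le_total l (2 * p) with h' | h'
    · left
      rw [min_eq_left (by linarith)]
      exact ⟨h, h', by ring, by ring⟩
    · right
      rw [min_eq_right (by linarith)]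
      exact ⟨h', by ring, by ring⟩

theorem rot_top_cases {p r l : ℝ} (hl : 0 ≤ l) (h1 : 0 ≤ p + r) (h2 : 0 ≤ r - p) :
    (l ≤ p + r ∧ rotY p r l = p - l ∧ rotU p r l = r) ∨
    (p + r ≤ l ∧ l ≤ 2 * r ∧ rotY p r l = - r ∧ rotU p r l = 2 * r + p - l) ∨
    (2 * r ≤ l ∧ rotY p r l = - r ∧ rotU p r l = p) := by
  obtain ⟨e1, e2⟩ := rot_top hl h1 h2
  rw [e1, e2]
  rcases le_total l (p + r) with h | h
  · left
    rw [max_eq_right (by linarith : l - (p + r) ≤ 0), min_eq_left h2, min_eq_left h]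
    exact ⟨h, rfl, by ring⟩
  · right
    rw [max_eq_left (by linarith : 0 ≤ l - (p + r)), min_eq_right h]
    rcases le_total l (2 * r) with h' | h'
    · left
      rw [min_eq_left (by linarith)]
      exact ⟨h, h', by ring, by ring⟩
    · right
      rw [min_eq_right (by linarith)]
      exact ⟨h', by ring, by ring⟩

/-- reduce a statement invariant under the central symmetry to the upper half plane `0 ≤ p + r`. -/
theorem half_ind {C : ℝ → ℝ → Prop} (hneg : ∀ p r, C (-p) (-r) → C p r)
    (hR : ∀ p r, 0 ≤ p + r → 0 ≤ p - r → C p r) (hT : ∀ p r, 0 ≤ p + r → 0 ≤ r - p → C p r) :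
    ∀ p r, C p r := by
  intro p r
  rcases le_total 0 (p + r) with h | h
  · rcases le_total 0 (p - r) with h' | h'
    · exact hR p r h h'
    · exact hT p r h (by linarith)
  · apply hneg
    rcases le_total 0 (-p - -r) with h' | h'
    · exact hR _ _ (by linarith) h'
    · exact hT _ _ (by linarith) (by linarith)

theorem rot_inv {l : ℝ} (hl : 0 ≤ l) : ∀ p r : ℝ,
    rotY (rotY p r l) (-rotU p r l) l = p ∧ rotU (rotY p r l) (-rotU p r l) l = - r := by
  apply half_ind
  · intro p r h
    obtain ⟨e1, e2⟩ := rot_neg p r l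
    rw [e1, e2] at h
    obtain ⟨f1, f2⟩ := rot_neg (rotY p r l) (- rotU p r l) l
    rw [f1, f2] at h
    constructor <;> linarith [h.1, h.2]
  · intro p r h1 h2
    rcases rot_right_cases hl h1 h2 with ⟨h3, e1, e2⟩ | ⟨h3, h4, e1, e2⟩ | ⟨h3, e1, e2⟩
    · rw [e1, e2]
      rcases rot_right_cases (p := p) (r := -(r + l)) hl (by linarith) (by linarith) with
        ⟨h3, e1, e2⟩ | ⟨h3, h4, e1, e2⟩ | ⟨h3, e1, e2⟩ <;> constructor <;> linarith
    · rw [e1, e2]
      obtain ⟨f1, f2⟩ := rot_neg (-(2 * p - r - l)) p l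
      rw [neg_neg] at f1 f2
      rw [f1, f2]
      rcases rot_top_cases (p := -(2 * p - r - l)) (r := p) hl (by linarith) (by linarith) with
        ⟨h3, e1, e2⟩ | ⟨h3, h4, e1, e2⟩ | ⟨h3, e1, e2⟩ <;> constructor <;> linarith
    · rw [e1, e2]
      obtain ⟨f1, f2⟩ := rot_neg r p l
      rw [f1, f2]
      rcases rot_top_cases (p := r) (r := p) hl (by linarith) (by linarith) with
        ⟨h3, e1, e2⟩ | ⟨h3, h4, e1, e2⟩ | ⟨h3, e1, e2⟩ <;> constructor <;> linarith
  · intro p r h1 h2
    rcases rot_top_cases hl h1 h2 with ⟨h3, e1, e2⟩ | ⟨h3, h4, e1, e2⟩ | ⟨h3, e1, e2⟩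
    · rw [e1, e2]
      obtain ⟨f1, f2⟩ := rot_neg (-(p - l)) r l
      rw [neg_neg] at f1 f2
      rw [f1, f2]
      rcases rot_top_cases (p := -(p - l)) (r := r) hl (by linarith) (by linarith) with
        ⟨h3, e1, e2⟩ | ⟨h3, h4, e1, e2⟩ | ⟨h3, e1, e2⟩ <;> constructor <;> linarith
    · rw [e1, e2]
      obtain ⟨f1, f2⟩ := rot_neg r (2 * r + p - l) l
      rw [f1, f2]
      rcases rot_right_cases (p := r) (r := (2 * r + p - l)) hl (by linarith) (by linarith) with
        ⟨h3, e1, e2⟩ | ⟨h3, h4, e1, e2⟩ | ⟨h3, e1, e2⟩ <;> constructor <;> linarith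
    · rw [e1, e2]
      obtain ⟨f1, f2⟩ := rot_neg r p l
      rw [f1, f2]
      rcases rot_right_cases (p := r) (r := p) hl (by linarith) (by linarith) with
        ⟨h3, e1, e2⟩ | ⟨h3, h4, e1, e2⟩ | ⟨h3, e1, e2⟩ <;> constructor <;> linarith

theorem rot_max {l : ℝ} (hl : 0 ≤ l) : ∀ p r : ℝ,
    max |rotY p r l| |rotU p r l| = max |p| |r| := by
  apply half_ind
  · intro p r h
    obtain ⟨e1, e2⟩ := rot_neg p r l
    rw [e1, e2, abs_neg, abs_neg, abs_neg, abs_neg] at h
    exact h
  · intro p r h1 h2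
    have hp : |p| = p := abs_of_nonneg (by linarith)
    have hr : |r| ≤ p := abs_le.2 ⟨by linarith, by linarith⟩
    rw [hp, max_eq_left hr]
    rcases rot_right_cases hl h1 h2 with ⟨h3, e1, e2⟩ | ⟨h3, h4, e1, e2⟩ | ⟨h3, e1, e2⟩
    · rw [e1, e2, hp]
      exact max_eq_left (abs_le.2 ⟨by linarith, by linarith⟩)
    · rw [e1, e2, hp]
      exact max_eq_right (abs_le.2 ⟨by linarith, by linarith⟩)
    · rw [e1, e2, hp, abs_neg]
      exact max_eq_right hr
  · intro p r h1 h2
    have hp : |r| = r := abs_of_nonneg (by linarith)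
    have hr : |p| ≤ r := abs_le.2 ⟨by linarith, by linarith⟩
    rw [hp, max_eq_right hr]
    rcases rot_top_cases hl h1 h2 with ⟨h3, e1, e2⟩ | ⟨h3, h4, e1, e2⟩ | ⟨h3, e1, e2⟩
    · rw [e1, e2, hp]
      exact max_eq_right (abs_le.2 ⟨by linarith, by linarith⟩)
    · rw [e1, e2, abs_neg, hp]
      exact max_eq_left (abs_le.2 ⟨by linarith, by linarith⟩)
    · rw [e1, e2, abs_neg, hp]
      exact max_eq_left hr

theorem rot_close {l : ℝ} (hl : 0 ≤ l) : ∀ p r : ℝ, |rotY p r l - p| ≤ l := by
  apply half_ind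
  · intro p r h
    obtain ⟨e1, e2⟩ := rot_neg p r l
    rw [e1, ← abs_neg] at h
    convert h using 2
    ring
  · intro p r h1 h2
    rcases rot_right_cases hl h1 h2 with ⟨h3, e1, e2⟩ | ⟨h3, h4, e1, e2⟩ | ⟨h3, e1, e2⟩ <;>
      rw [e1] <;> exact abs_le.2 ⟨by linarith, by linarith⟩
  · intro p r h1 h2
    rcases rot_top_cases hl h1 h2 with ⟨h3, e1, e2⟩ | ⟨h3, h4, e1, e2⟩ | ⟨h3, e1, e2⟩ <;>
      rw [e1] <;> exact abs_le.2 ⟨by linarith, by linarith⟩

theorem rot_far {l : ℝ} (hl : 0 ≤ l) : ∀ p r : ℝ,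
    |rotY p r l + r| ≤ max (2 * max |p| |r| - l) 0 ∧
    |rotU p r l - p| ≤ max (2 * max |p| |r| - l) 0 := by
  apply half_ind
  · intro p r h
    obtain ⟨e1, e2⟩ := rot_neg p r l
    rw [e1, e2, abs_neg, abs_neg] at h
    constructor
    · rw [← abs_neg]
      convert h.1 using 2
      ring
    · rw [← abs_neg]
      convert h.2 using 2
      ring
  · intro p r h1 h2
    have hp : |p| = p := abs_of_nonneg (by linarith)
    have hr : |r| ≤ p := abs_le.2 ⟨by linarith, by linarith⟩
    rw [hp, max_eq_left hr]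
    have k1 := le_max_left (2 * p - l) 0
    have k2 := le_max_right (2 * p - l) 0
    rcases rot_right_cases hl h1 h2 with ⟨h3, e1, e2⟩ | ⟨h3, h4, e1, e2⟩ | ⟨h3, e1, e2⟩ <;>
      rw [e1, e2] <;> constructor <;> exact abs_le.2 ⟨by linarith, by linarith⟩
  · intro p r h1 h2
    have hp : |r| = r := abs_of_nonneg (by linarith)
    have hr : |p| ≤ r := abs_le.2 ⟨by linarith, by linarith⟩
    rw [hp, max_eq_right hr]
    have k1 := le_max_left (2 * r - l) 0
    have k2 := le_max_right (2 * r - l) 0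
    rcases rot_top_cases hl h1 h2 with ⟨h3, e1, e2⟩ | ⟨h3, h4, e1, e2⟩ | ⟨h3, e1, e2⟩ <;>
      rw [e1, e2] <;> constructor <;> exact abs_le.2 ⟨by linarith, by linarith⟩

/-- the clockwise rotation -/
def torY (y u l : ℝ) : ℝ := rotY y (-u) l
def torU (y u l : ℝ) : ℝ := - rotU y (-u) l

theorem tor_rot {l : ℝ} (hl : 0 ≤ l) (p r : ℝ) :
    torY (rotY p r l) (rotU p r l) l = p ∧ torU (rotY p r l) (rotU p r l) l = r := by
  obtain ⟨h1, h2⟩ := rot_inv hl p r
  unfold torY torU
  exact ⟨h1, by linarith⟩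

theorem rot_tor {l : ℝ} (hl : 0 ≤ l) (y u : ℝ) :
    rotY (torY y u l) (torU y u l) l = y ∧ rotU (torY y u l) (torU y u l) l = u := by
  obtain ⟨h1, h2⟩ := rot_inv hl y (-u)
  unfold torY torU
  exact ⟨h1, by linarith⟩

theorem tor_max {l : ℝ} (hl : 0 ≤ l) (y u : ℝ) :
    max |torY y u l| |torU y u l| = max |y| |u| := by
  have h := rot_max hl y (-u)
  unfold torY torU
  rw [abs_neg] at *
  exact h

theorem tor_close {l : ℝ} (hl : 0 ≤ l) (y u : ℝ) : |torY y u l - y| ≤ l := rot_close hl y (-u)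

theorem tor_far {l : ℝ} (hl : 0 ≤ l) (y u : ℝ) :
    |torY y u l - u| ≤ max (2 * max |y| |u| - l) 0 ∧
    |torU y u l + y| ≤ max (2 * max |y| |u| - l) 0 := by
  obtain ⟨h1, h2⟩ := rot_far hl y (-u)
  rw [abs_neg] at h1 h2
  unfold torY torU
  constructor
  · rwa [← sub_eq_add_neg] at h1
  · rw [← abs_neg]
    convert h2 using 2
    ring

/-! the homeomorphism `(p, q, r) ↦ (y, u, v)` of `ℝ³`. -/

def hY (p q r : ℝ) : ℝ := rotY p r (2 * |p + q|)
def hU (p q r : ℝ) : ℝ := rotU p r (2 * |p + q|)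
def hV (p q : ℝ) : ℝ := p + q
def kP (y u v : ℝ) : ℝ := torY y u (2 * |v|)
def kR (y u v : ℝ) : ℝ := torU y u (2 * |v|)
def kQ (y u v : ℝ) : ℝ := v - kP y u v

theorem kP_h (p q r : ℝ) : kP (hY p q r) (hU p q r) (hV p q) = p :=
  (tor_rot (by positivity) p r).1
theorem kR_h (p q r : ℝ) : kR (hY p q r) (hU p q r) (hV p q) = r :=
  (tor_rot (by positivity) p r).2
theorem kQ_h (p q r : ℝ) : kQ (hY p q r) (hU p q r) (hV p q) = q := by
  unfold kQ
  rw [kP_h]
  unfold hV
  ring
theorem hV_k (y u v : ℝ) : hV (kP y u v) (kQ y u v) = v := by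
  unfold hV kQ
  ring
theorem hY_k (y u v : ℝ) : hY (kP y u v) (kQ y u v) (kR y u v) = y := by
  have h := hV_k y u v
  unfold hV at h
  unfold hY
  rw [h]
  exact (rot_tor (by positivity) y u).1
theorem hU_k (y u v : ℝ) : hU (kP y u v) (kQ y u v) (kR y u v) = u := by
  have h := hV_k y u v
  unfold hV at h
  unfold hU
  rw [h]
  exact (rot_tor (by positivity) y u).2

/-- type `A` (the coordinates `p`, `r`, `y`, `u`) : exact. -/
theorem hA {p q r c : ℝ} (hp : |p| ≤ c) (hr : |r| ≤ c) : |hY p q r| ≤ c ∧ |hU p q r| ≤ c := by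
  have h := rot_max (l := 2 * |p + q|) (by positivity) p r
  have h' := max_le hp hr
  rw [← h] at h'
  exact ⟨(le_max_left _ _).trans h', (le_max_right _ _).trans h'⟩

theorem kA {y u v c : ℝ} (hy : |y| ≤ c) (hu : |u| ≤ c) : |kP y u v| ≤ c ∧ |kR y u v| ≤ c := by
  have h := tor_max (l := 2 * |v|) (by positivity) y u
  have h' := max_le hy hu
  rw [← h] at h'
  exact ⟨(le_max_left _ _).trans h', (le_max_right _ _).trans h'⟩

/-- type `B` (the coordinates `p`, `q`, `y`, `v`) : factor 5. -/
theorem hB {p q r c : ℝ} (hp : |p| ≤ c) (hq : |q| ≤ c) : |hY p q r| ≤ 5 * c ∧ |hV p q| ≤ 5 * c := by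
  have h := rot_close (l := 2 * |p + q|) (by positivity) p r
  have h1 := abs_add_le p q
  have h2 : |hY p q r| ≤ |hY p q r - p| + |p| := by
    have := abs_add_le (hY p q r - p) p
    rwa [sub_add_cancel] at this
  have h0 : 0 ≤ c := (abs_nonneg p).trans hp
  change |hY p q r - p| ≤ _ at h
  constructor
  · linarith
  · unfold hV
    linarith

theorem kB {y u v c : ℝ} (hy : |y| ≤ c) (hv : |v| ≤ c) : |kP y u v| ≤ 5 * c ∧ |kQ y u v| ≤ 5 * c := by
  have h := tor_close (l := 2 * |v|) (by positivity) y u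
  change |kP y u v - y| ≤ _ at h
  have h0 : 0 ≤ c := (abs_nonneg y).trans hy
  have h2 : |kP y u v| ≤ |kP y u v - y| + |y| := by
    have := abs_add_le (kP y u v - y) y
    rwa [sub_add_cancel] at this
  have h3 : |kQ y u v| ≤ |v| + |kP y u v| := abs_sub _ _
  constructor <;> linarith

/-- type `C` (the coordinates `q`, `r`, `y`, `u - v`) : factor 3. -/
theorem hC {p q r c : ℝ} (hq : |q| ≤ c) (hr : |r| ≤ c) :
    |hY p q r| ≤ 5 * c ∧ |hU p q r - hV p q| ≤ 5 * c := by
  obtain ⟨h1, h2⟩ := rot_far (l := 2 * |p + q|) (by positivity) p r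
  change |hY p q r + r| ≤ _ at h1
  change |hU p q r - p| ≤ _ at h2
  have h0 : 0 ≤ c := (abs_nonneg q).trans hq
  have h3 : max (2 * max |p| |r| - 2 * |p + q|) 0 ≤ 2 * c := by
    apply max_le _ (by linarith)
    have : max |p| |r| ≤ |p + q| + c := by
      apply max_le
      · have := abs_sub (p + q) q
        rw [add_sub_cancel_right] at this
        linarith
      · have := abs_nonneg (p + q)
        linarith
    linarith
  constructor
  · have := abs_sub (hY p q r + r) r
    rw [add_sub_cancel_right] at this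
    linarith
  · have := abs_sub (hU p q r - p) q
    have e : hU p q r - p - q = hU p q r - hV p q := by unfold hV; ring
    rw [e] at this
    linarith

theorem kC {y u v c : ℝ} (hy : |y| ≤ c) (hv : |u - v| ≤ c) :
    |kQ y u v| ≤ 5 * c ∧ |kR y u v| ≤ 5 * c := by
  obtain ⟨h1, h2⟩ := tor_far (l := 2 * |v|) (by positivity) y u
  change |kP y u v - u| ≤ _ at h1
  change |kR y u v + y| ≤ _ at h2
  have h0 : 0 ≤ c := (abs_nonneg y).trans hy
  have h3 : max (2 * max |y| |u| - 2 * |v|) 0 ≤ 2 * c := by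
    apply max_le _ (by linarith)
    have : max |y| |u| ≤ |v| + c := by
      apply max_le
      · have := abs_nonneg v
        linarith
      · have := abs_add_le (u - v) v
        rw [sub_add_cancel] at this
        linarith
    linarith
  constructor
  · have := abs_add_le (kP y u v - u) (u - v)
    have e : kP y u v - u + (u - v) = - kQ y u v := by unfold kQ; ring
    rw [e, abs_neg] at this
    linarith
  · have := abs_sub (kR y u v + y) y
    rw [add_sub_cancel_right] at this
    linarith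

/-! uniform continuity -/

section uc
variable {α : Type*} [UniformSpace α]

theorem uc_abs {f : α → ℝ} (hf : UniformContinuous f) : UniformContinuous fun x => |f x| :=
  Real.uniformContinuous_abs.comp hf

theorem uc_cmul {f : α → ℝ} (c : ℝ) (hf : UniformContinuous f) :
    UniformContinuous fun x => c * f x := hf.const_mul' c

theorem uc_max {f g : α → ℝ} (hf : UniformContinuous f) (hg : UniformContinuous g) :
    UniformContinuous fun x => max (f x) (g x) := by
  have e : (fun x => max (f x) (g x)) = fun x => (1/2 : ℝ) * (f x + g x + |f x - g x|) := by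
    funext x
    rcases le_total (f x) (g x) with h | h
    · rw [max_eq_right h, abs_of_nonpos (by linarith)]; ring
    · rw [max_eq_left h, abs_of_nonneg (by linarith)]; ring
  rw [e]
  exact uc_cmul _ ((hf.add hg).add (uc_abs (hf.sub hg)))

theorem uc_min {f g : α → ℝ} (hf : UniformContinuous f) (hg : UniformContinuous g) :
    UniformContinuous fun x => min (f x) (g x) := by
  have e : (fun x => min (f x) (g x)) = fun x => (1/2 : ℝ) * (f x + g x - |f x - g x|) := by
    funext x
    rcases le_total (f x) (g x) with h | h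
    · rw [min_eq_left h, abs_of_nonpos (by linarith)]; ring
    · rw [min_eq_right h, abs_of_nonneg (by linarith)]; ring
  rw [e]
  exact uc_cmul _ ((hf.add hg).sub (uc_abs (hf.sub hg)))

theorem uc_rotY {p r l : α → ℝ} (hp : UniformContinuous p) (hr : UniformContinuous r)
    (hl : UniformContinuous l) : UniformContinuous fun x => rotY (p x) (r x) (l x) := by
  unfold rotY
  exact ((hp.sub (uc_min (uc_max (hl.sub (uc_max (hp.sub hr) uniformContinuous_const))
    uniformContinuous_const) (uc_max (hp.add hr) uniformContinuous_const))).add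
    (uc_min (uc_max (hl.sub (uc_max (hr.sub hp) uniformContinuous_const))
    uniformContinuous_const) (uc_max (hp.add hr).neg uniformContinuous_const)))

theorem uc_rotU {p r l : α → ℝ} (hp : UniformContinuous p) (hr : UniformContinuous r)
    (hl : UniformContinuous l) : UniformContinuous fun x => rotU (p x) (r x) (l x) := by
  unfold rotU
  exact ((hr.add (uc_min (uc_max (hl.sub (uc_max (hp.add hr).neg uniformContinuous_const))
    uniformContinuous_const) (uc_max (hp.sub hr) uniformContinuous_const))).sub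
    (uc_min (uc_max (hl.sub (uc_max (hp.add hr) uniformContinuous_const))
    uniformContinuous_const) (uc_max (hr.sub hp) uniformContinuous_const)))

theorem uc_hY {p q r : α → ℝ} (hp : UniformContinuous p) (hq : UniformContinuous q)
    (hr : UniformContinuous r) : UniformContinuous fun x => hY (p x) (q x) (r x) :=
  uc_rotY hp hr (uc_cmul 2 (uc_abs (hp.add hq)))

theorem uc_hU {p q r : α → ℝ} (hp : UniformContinuous p) (hq : UniformContinuous q)
    (hr : UniformContinuous r) : UniformContinuous fun x => hU (p x) (q x) (r x) :=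
  uc_rotU hp hr (uc_cmul 2 (uc_abs (hp.add hq)))

theorem uc_hV {p q : α → ℝ} (hp : UniformContinuous p) (hq : UniformContinuous q) :
    UniformContinuous fun x => hV (p x) (q x) := hp.add hq

theorem uc_kP {y u v : α → ℝ} (hy : UniformContinuous y) (hu : UniformContinuous u)
    (hv : UniformContinuous v) : UniformContinuous fun x => kP (y x) (u x) (v x) :=
  uc_rotY hy hu.neg (uc_cmul 2 (uc_abs hv))

theorem uc_kR {y u v : α → ℝ} (hy : UniformContinuous y) (hu : UniformContinuous u)
    (hv : UniformContinuous v) : UniformContinuous fun x => kR (y x) (u x) (v x) :=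
  (uc_rotU hy hu.neg (uc_cmul 2 (uc_abs hv))).neg

theorem uc_kQ {y u v : α → ℝ} (hy : UniformContinuous y) (hu : UniformContinuous u)
    (hv : UniformContinuous v) : UniformContinuous fun x => kQ (y x) (u x) (v x) :=
  hv.sub (uc_kP hy hu hv)

end uc

end Pool.Agent.Helper830.MPel
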